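import Pool.Agent.Lib_MP_f1a94e_ap.Defs2

/-!
# MP_f1a94e_nt: sums over the powerset of a disjoint union (piece S4)
-/

set_option autoImplicit false

namespace Pool.Agent.OmAP

open Finset

theorem sum_powerset_union (P Q : Finset ℕ) (h : Disjoint P Q) (f : Finset ℕ → ℝ) :
    ∑ A ∈ (P ∪ Q).powerset, f A = ∑ A ∈ P.powerset, ∑ C ∈ Q.powerset, f (A ∪ C) := by
  rw [← sum_product']
  symm
  refine sum_bij' (fun x _ => x.1 ∪ x.2) (fun A _ => (A ∩ P, A ∩ Q)) ?_ ?_ ?_ ?_ ?_
  · intro x hx
    simp only [mem_product, mem_powerset] at hx ⊢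
    exact union_subset_union hx.1 hx.2
  · intro A _
    simp only [mem_product, mem_powerset]
    exact ⟨inter_subset_right, inter_subset_right⟩
  · intro x hx
    simp only [mem_product, mem_powerset] at hx
    have h1 : (x.1 ∪ x.2) ∩ P = x.1 := by
      rw [union_inter_distrib_right, inter_eq_left.2 hx.1,
        disjoint_iff_inter_eq_empty.1 (h.symm.mono_left hx.2), union_empty]
    have h2 : (x.1 ∪ x.2) ∩ Q = x.2 := by
      rw [union_inter_distrib_right, inter_eq_left.2 hx.2,
        disjoint_iff_inter_eq_empty.1 (h.mono_left hx.1), empty_union]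
    exact Prod.ext h1 h2
  · intro A hA
    simp only [mem_powerset] at hA
    show A ∩ P ∪ A ∩ Q = A
    rw [← inter_union_distrib_left, inter_eq_left.2 hA]
  · intro x _
    rfl

theorem sum_powerset_blocks (m : ℕ) (B : ℕ → Finset ℕ)
    (hd : ∀ i < m, ∀ j < m, i ≠ j → Disjoint (B i) (B j)) (φ : ℕ → Finset ℕ → ℝ) :
    ∑ A ∈ ((range m).biUnion B).powerset, ∏ j ∈ range m, φ j (A ∩ B j) =
      ∏ j ∈ range m, ∑ A ∈ (B j).powerset, φ j A := by
  induction m with
  | zero => simp
  | succ m ih =>
    have hd' : ∀ i < m, ∀ j < m, i ≠ j → Disjoint (B i) (B j) := fun i hi j hj hij =>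
      hd i (hi.trans (Nat.lt_succ_self m)) j (hj.trans (Nat.lt_succ_self m)) hij
    have hdis : Disjoint ((range m).biUnion B) (B m) := by
      rw [disjoint_biUnion_left]
      intro i hi
      have hi' := mem_range.1 hi
      exact hd i (hi'.trans (Nat.lt_succ_self m)) m (Nat.lt_succ_self m) hi'.ne
    have hU : (range (m + 1)).biUnion B = (range m).biUnion B ∪ B m := by
      rw [range_add_one, biUnion_insert, union_comm]
    rw [hU, sum_powerset_union _ _ hdis, prod_range_succ, ← ih hd', sum_mul]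
    refine sum_congr rfl fun A hA => ?_
    rw [mul_sum]
    refine sum_congr rfl fun C hC => ?_
    rw [mem_powerset] at hA hC
    rw [prod_range_succ]
    congr 1
    · refine prod_congr rfl fun j hj => ?_
      have hj' := mem_range.1 hj
      have : C ∩ B j = ∅ := disjoint_iff_inter_eq_empty.1
        ((hd m (Nat.lt_succ_self m) j (hj'.trans (Nat.lt_succ_self m)) hj'.ne').mono_left hC)
      rw [union_inter_distrib_right, this, union_empty]
    · have : A ∩ B m = ∅ := disjoint_iff_inter_eq_empty.1 (hdis.mono_left hA)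
      rw [union_inter_distrib_right, this, empty_union, inter_eq_left.2 hC]

theorem powerset_card_sum (P : Finset ℕ) (b : ℕ) (c : ℕ → ℝ) (g : ℕ → ℝ)
    (hc : ∀ k, b < k → c k = 0) :
    ∑ A ∈ P.powerset, c A.card * ∏ p ∈ A, g p =
      ∑ k ∈ range (b + 1), c k * ∑ A ∈ P.powersetCard k, ∏ p ∈ A, g p := by
  have h1 : ∑ A ∈ P.powerset, c A.card * ∏ p ∈ A, g p =
      ∑ k ∈ range (max b P.card + 1), c k * ∑ A ∈ P.powersetCard k, ∏ p ∈ A, g p := by
    have hmap : ∀ A ∈ P.powerset, A.card ∈ range (max b P.card + 1) := by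
      intro A hA
      rw [mem_powerset] at hA
      rw [mem_range]
      exact Nat.lt_succ_of_le ((card_le_card hA).trans (le_max_right _ _))
    rw [← sum_fiberwise_of_maps_to hmap]
    refine sum_congr rfl fun k _ => ?_
    rw [mul_sum, ← powersetCard_eq_filter]
    refine sum_congr rfl fun A hA => ?_
    rw [(mem_powersetCard.1 hA).2]
  rw [h1]
  symm
  refine sum_subset (range_subset_range.2 (Nat.succ_le_succ (le_max_left _ _))) ?_
  intro k _ hk
  rw [mem_range, not_lt] at hk
  rw [hc k hk, zero_mul]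

end Pool.Agent.OmAP
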