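import Pool.Agent.Lib_MP_f1a94e_ap.Defs2

/-!
# MP_f1a94e_nt: elementary symmetric sums
-/

set_option autoImplicit false

namespace Pool.Agent.OmAP

open Finset ArithmeticFunction

namespace Esymm

theorem e_zero (P : Finset ℕ) (g : ℕ → ℝ) :
    ∑ A ∈ P.powersetCard 0, ∏ p ∈ A, g p = 1 := by
  simp

theorem e_empty (g : ℕ → ℝ) (k : ℕ) :
    ∑ A ∈ (∅ : Finset ℕ).powersetCard (k + 1), ∏ p ∈ A, g p = 0 := by
  have : (∅ : Finset ℕ).powersetCard (k + 1) = ∅ :=
    Finset.powersetCard_eq_empty.2 (by simp)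
  rw [this, Finset.sum_empty]

theorem e_insert (P : Finset ℕ) (a : ℕ) (ha : a ∉ P) (g : ℕ → ℝ) (k : ℕ) :
    ∑ A ∈ (insert a P).powersetCard (k + 1), ∏ p ∈ A, g p =
      ∑ A ∈ P.powersetCard (k + 1), ∏ p ∈ A, g p +
        g a * ∑ A ∈ P.powersetCard k, ∏ p ∈ A, g p := by
  rw [Finset.powersetCard_succ_insert ha, Finset.sum_union]
  · congr 1
    rw [Finset.sum_image, Finset.mul_sum]
    · apply Finset.sum_congr rfl
      intro A hA
      have hA' : a ∉ A := fun h => ha ((Finset.mem_powersetCard.1 hA).1 h)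
      rw [Finset.prod_insert hA']
    · intro A hA B hB hAB
      have hA' : a ∉ A := fun h => ha ((Finset.mem_powersetCard.1 (Finset.mem_coe.1 hA)).1 h)
      have hB' : a ∉ B := fun h => ha ((Finset.mem_powersetCard.1 (Finset.mem_coe.1 hB)).1 h)
      calc A = (insert a A).erase a := (Finset.erase_insert hA').symm
        _ = (insert a B).erase a := by rw [hAB]
        _ = B := Finset.erase_insert hB'
  · rw [Finset.disjoint_left]
    intro A hA hA2
    obtain ⟨B, -, rfl⟩ := Finset.mem_image.1 hA2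
    exact ha ((Finset.mem_powersetCard.1 hA).1 (Finset.mem_insert_self _ _))

theorem e_nonneg (P : Finset ℕ) (g : ℕ → ℝ) (hg : ∀ p ∈ P, 0 ≤ g p) (k : ℕ) :
    0 ≤ ∑ A ∈ P.powersetCard k, ∏ p ∈ A, g p :=
  Finset.sum_nonneg fun _ hA => Finset.prod_nonneg fun p hp =>
    hg p ((Finset.mem_powersetCard.1 hA).1 hp)

theorem pow_step (G x : ℝ) (hG : 0 ≤ G) (hx : 0 ≤ x) (k : ℕ) :
    G ^ (k + 1) + ((k : ℝ) + 1) * x * G ^ k ≤ (G + x) ^ (k + 1) := by
  induction k with
  | zero => simp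
  | succ k ih =>
    have h1 : (G + x) * (G ^ (k + 1) + ((k : ℝ) + 1) * x * G ^ k) ≤ (G + x) * (G + x) ^ (k + 1) :=
      mul_le_mul_of_nonneg_left ih (by linarith)
    have h2 : (G + x) ^ (k + 1 + 1) = (G + x) * (G + x) ^ (k + 1) := by ring
    rw [h2]
    refine le_trans ?_ h1
    push_cast
    have h3 : 0 ≤ ((k : ℝ) + 1) * x * x * G ^ k := by positivity
    have h4 : (G + x) * (G ^ (k + 1) + ((k : ℝ) + 1) * x * G ^ k) =
      G ^ (k + 1 + 1) + ((k : ℝ) + 1 + 1) * x * G ^ (k + 1) + ((k : ℝ) + 1) * x * x * G ^ k := by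
      ring
    rw [h4]
    linarith

end Esymm

open Esymm

theorem esymm_le (P : Finset ℕ) (g : ℕ → ℝ) (hg : ∀ p ∈ P, 0 ≤ g p) (k : ℕ) :
    ∑ A ∈ P.powersetCard k, ∏ p ∈ A, g p ≤ (∑ p ∈ P, g p) ^ k / (k.factorial : ℝ) := by
  induction P using Finset.induction_on generalizing k with
  | empty =>
    cases k with
    | zero => simp
    | succ k => rw [e_empty]; simp
  | insert a P ha ih =>
    have hg' : ∀ p ∈ P, 0 ≤ g p := fun p hp => hg p (Finset.mem_insert_of_mem hp)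
    have hga : 0 ≤ g a := hg a (Finset.mem_insert_self _ _)
    cases k with
    | zero => simp
    | succ k =>
      rw [e_insert P a ha g k, Finset.sum_insert ha]
      have h1 := ih hg' (k + 1)
      have h2 := mul_le_mul_of_nonneg_left (ih hg' k) hga
      have hG : 0 ≤ ∑ p ∈ P, g p := Finset.sum_nonneg hg'
      have h3 := pow_step _ _ hG hga k
      have hf : (0 : ℝ) < (k.factorial : ℝ) := by exact_mod_cast k.factorial_pos
      have hf1 : ((k + 1).factorial : ℝ) = ((k : ℝ) + 1) * (k.factorial : ℝ) := by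
        rw [Nat.factorial_succ]; push_cast; ring
      have hk1 : (0 : ℝ) < (k : ℝ) + 1 := by positivity
      rw [add_comm (g a)]
      refine (add_le_add h1 h2).trans ?_
      rw [hf1]
      have h4 : (∑ p ∈ P, g p) ^ (k + 1) / (((k : ℝ) + 1) * (k.factorial : ℝ)) +
          g a * ((∑ p ∈ P, g p) ^ k / (k.factorial : ℝ)) =
          ((∑ p ∈ P, g p) ^ (k + 1) + ((k : ℝ) + 1) * g a * (∑ p ∈ P, g p) ^ k) /
            (((k : ℝ) + 1) * (k.factorial : ℝ)) := by
        field_simp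
      rw [h4]
      exact div_le_div_of_nonneg_right h3 (by positivity)

theorem bonf_prod (P : Finset ℕ) (g : ℕ → ℝ) (hg : ∀ p ∈ P, 0 ≤ g p ∧ g p ≤ 1) (b : ℕ)
    (hb : Even b) :
    ∏ p ∈ P, (1 - g p) ≤
      ∑ k ∈ range (b + 1), (-1 : ℝ) ^ k * ∑ A ∈ P.powersetCard k, ∏ p ∈ A, g p := by
  have main : ∀ P : Finset ℕ, (∀ p ∈ P, 0 ≤ g p ∧ g p ≤ 1) → ∀ b : ℕ,
      0 ≤ (-1 : ℝ) ^ b * (∑ k ∈ range (b + 1), (-1 : ℝ) ^ k *
        ∑ A ∈ P.powersetCard k, ∏ p ∈ A, g p - ∏ p ∈ P, (1 - g p)) := by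
    intro P
    induction P using Finset.induction_on with
    | empty =>
      intro _ b
      have : ∑ k ∈ range (b + 1), (-1 : ℝ) ^ k *
          ∑ A ∈ (∅ : Finset ℕ).powersetCard k, ∏ p ∈ A, g p = 1 := by
        rw [Finset.sum_range_succ', e_zero]
        simp only [e_empty, mul_zero, Finset.sum_const_zero, pow_zero, mul_one, zero_add]
      rw [this]
      simp
    | insert a P ha ih =>
      intro hP b
      have hP' : ∀ p ∈ P, 0 ≤ g p ∧ g p ≤ 1 := fun p hp => hP p (Finset.mem_insert_of_mem hp)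
      have hga := hP a (Finset.mem_insert_self _ _)
      have hpi0 : 0 ≤ ∏ p ∈ P, (1 - g p) :=
        Finset.prod_nonneg fun p hp => by linarith [(hP' p hp).2]
      have hpi1 : ∏ p ∈ P, (1 - g p) ≤ 1 :=
        Finset.prod_le_one (fun p hp => by linarith [(hP' p hp).2])
          fun p hp => by linarith [(hP' p hp).1]
      rw [Finset.prod_insert ha]
      cases b with
      | zero =>
        simp only [zero_add, Finset.range_one, Finset.sum_singleton, pow_zero, one_mul]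
        rw [e_zero]
        nlinarith
      | succ b =>
        have h1 := ih hP' (b + 1)
        have h2 := mul_nonneg hga.1 (ih hP' b)
        have e1 : ∑ k ∈ range (b + 1 + 1), (-1 : ℝ) ^ k *
            ∑ A ∈ (insert a P).powersetCard k, ∏ p ∈ A, g p =
            ∑ k ∈ range (b + 1 + 1), (-1 : ℝ) ^ k * ∑ A ∈ P.powersetCard k, ∏ p ∈ A, g p -
            g a * ∑ k ∈ range (b + 1), (-1 : ℝ) ^ k * ∑ A ∈ P.powersetCard k, ∏ p ∈ A, g p := by
          rw [Finset.sum_range_succ', Finset.sum_range_succ' (fun k => (-1 : ℝ) ^ k *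
            ∑ A ∈ P.powersetCard k, ∏ p ∈ A, g p) (b + 1), e_zero, e_zero, Finset.mul_sum]
          have : ∀ k ∈ range (b + 1), (-1 : ℝ) ^ (k + 1) *
              ∑ A ∈ (insert a P).powersetCard (k + 1), ∏ p ∈ A, g p =
              (-1 : ℝ) ^ (k + 1) * ∑ A ∈ P.powersetCard (k + 1), ∏ p ∈ A, g p -
              g a * ((-1 : ℝ) ^ k * ∑ A ∈ P.powersetCard k, ∏ p ∈ A, g p) := by
            intro k _
            rw [e_insert P a ha g k]
            ring
          rw [Finset.sum_congr rfl this, Finset.sum_sub_distrib]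
          ring
        rw [e1]
        have e2 : (-1 : ℝ) ^ (b + 1) = -(-1) ^ b := by ring
        rw [e2] at h1 ⊢
        nlinarith
  have := main P hg b
  rw [hb.neg_one_pow, one_mul] at this
  linarith

theorem exp_le_prod (P : Finset ℕ) (g : ℕ → ℝ) (hg : ∀ p ∈ P, 0 ≤ g p ∧ g p ≤ 1 / 2) :
    Real.exp (-(2 * ∑ p ∈ P, g p)) ≤ ∏ p ∈ P, (1 - g p) := by
  rw [Finset.mul_sum, ← Finset.sum_neg_distrib, Real.exp_sum]
  apply Finset.prod_le_prod (fun p _ => (Real.exp_pos _).le)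
  intro p hp
  obtain ⟨h0, h1⟩ := hg p hp
  have h2 : 2 * g p + 1 ≤ Real.exp (2 * g p) := Real.add_one_le_exp _
  rw [Real.exp_neg, inv_le_comm₀ (Real.exp_pos _) (by linarith)]
  refine le_trans ?_ h2
  rw [inv_le_iff_one_le_mul₀ (by linarith)]
  nlinarith

end Pool.Agent.OmAP
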