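import Pool.Agent.Lib_MP_f1a94e_ap.Ineq
import Pool.Agent.Lib_MP_f1a94e_ap.Esymm
import Pool.Agent.Lib_MP_f1a94e_ap.Blocks

/-!
# MP_f1a94e_nt: Brun-Hooley weights for given blocks
-/

set_option autoImplicit false

namespace Pool.Agent.OmAP

open Finset ArithmeticFunction

/-- truncated Moebius weight -/
noncomputable def cw (b : ℕ → ℕ) (j k : ℕ) : ℝ := if k ≤ b j then (-1) ^ k else 0

/-- correction weight -/
noncomputable def ew (b : ℕ → ℕ) (l k : ℕ) : ℝ := if k = b l + 1 then 1 else 0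

/-- Brun-Hooley weight -/
noncomputable def lw (m : ℕ) (B : ℕ → Finset ℕ) (b : ℕ → ℕ) (A : Finset ℕ) : ℝ :=
  ∏ j ∈ range m, cw b j (A ∩ B j).card -
    ∑ l ∈ range m, ew b l (A ∩ B l).card * ∏ j ∈ (range m).erase l, cw b j (A ∩ B j).card

theorem abs_cw_le (b : ℕ → ℕ) (j k : ℕ) : |cw b j k| ≤ 1 := by
  unfold cw
  split_ifs with h
  · simp [abs_pow]
  · simp

theorem abs_ew_le (b : ℕ → ℕ) (j k : ℕ) : |ew b j k| ≤ 1 := by
  unfold ew
  split_ifs with h
  · simp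
  · simp

theorem abs_prod_cw_le (b : ℕ → ℕ) (s : Finset ℕ) (f : ℕ → ℕ) :
    |∏ j ∈ s, cw b j (f j)| ≤ 1 := by
  rw [Finset.abs_prod]
  exact Finset.prod_le_one (fun i _ => abs_nonneg _) fun i _ => abs_cw_le _ _ _

/-- if block `l0` has more than `b l0` elements only one term is left -/
theorem lw_eq_of_big (m : ℕ) (B : ℕ → Finset ℕ) (b : ℕ → ℕ) (A : Finset ℕ) (l0 : ℕ)
    (hl : l0 < m) (hb : b l0 < (A ∩ B l0).card) :
    lw m B b A = -(ew b l0 (A ∩ B l0).card *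
      ∏ j ∈ (range m).erase l0, cw b j (A ∩ B j).card) := by
  have hc0 : cw b l0 (A ∩ B l0).card = 0 := by
    unfold cw
    rw [if_neg (by omega)]
  have h1 : ∏ j ∈ range m, cw b j (A ∩ B j).card = 0 :=
    Finset.prod_eq_zero (mem_range.mpr hl) hc0
  have h2 : ∑ l ∈ range m, ew b l (A ∩ B l).card * ∏ j ∈ (range m).erase l,
      cw b j (A ∩ B j).card = ew b l0 (A ∩ B l0).card *
      ∏ j ∈ (range m).erase l0, cw b j (A ∩ B j).card := by
    apply Finset.sum_eq_single_of_mem l0 (mem_range.mpr hl)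
    intro l _ hne
    have : ∏ j ∈ (range m).erase l, cw b j (A ∩ B j).card = 0 :=
      Finset.prod_eq_zero (Finset.mem_erase.mpr ⟨hne.symm, mem_range.mpr hl⟩) hc0
    rw [this, mul_zero]
  rw [lw, h1, h2, zero_sub]

theorem abs_lw_le (m : ℕ) (B : ℕ → Finset ℕ) (b : ℕ → ℕ) (A : Finset ℕ) : |lw m B b A| ≤ 1 := by
  by_cases h : ∃ l0 < m, b l0 < (A ∩ B l0).card
  · obtain ⟨l0, hl, hb⟩ := h
    rw [lw_eq_of_big m B b A l0 hl hb, abs_neg, abs_mul]
    exact mul_le_one₀ (abs_ew_le _ _ _) (abs_nonneg _)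
      (abs_prod_cw_le b _ fun j => (A ∩ B j).card)
  · push Not at h
    have h2 : ∑ l ∈ range m, ew b l (A ∩ B l).card * ∏ j ∈ (range m).erase l,
        cw b j (A ∩ B j).card = 0 := by
      apply Finset.sum_eq_zero
      intro l hl
      have := h l (mem_range.mp hl)
      unfold ew
      rw [if_neg (by omega), zero_mul]
    rw [lw, h2, sub_zero]
    exact abs_prod_cw_le b _ fun j => (A ∩ B j).card

theorem lw_card_le (m : ℕ) (B : ℕ → Finset ℕ) (b : ℕ → ℕ) (A : Finset ℕ) (h : lw m B b A ≠ 0)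
    (j : ℕ) (hj : j < m) : (A ∩ B j).card ≤ b j + 1 := by
  by_contra hcon
  push Not at hcon
  apply h
  rw [lw_eq_of_big m B b A j hj (by omega)]
  have : ew b j (A ∩ B j).card = 0 := by
    unfold ew
    rw [if_neg (by omega)]
  rw [this, zero_mul, neg_zero]

theorem prod_blocks (m : ℕ) (B : ℕ → Finset ℕ)
    (hd : ∀ i < m, ∀ j < m, i ≠ j → Disjoint (B i) (B j)) (g : ℕ → ℝ) (A : Finset ℕ)
    (hA : A ⊆ (range m).biUnion B) : ∏ p ∈ A, g p = ∏ j ∈ range m, ∏ p ∈ A ∩ B j, g p := by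
  have h1 : A = (range m).biUnion fun j => A ∩ B j := by
    ext p
    simp only [mem_biUnion, mem_inter]
    constructor
    · intro hp
      obtain ⟨j, hj, hpj⟩ := mem_biUnion.mp (hA hp)
      exact ⟨j, hj, hp, hpj⟩
    · rintro ⟨j, _, hp, _⟩
      exact hp
  conv_lhs => rw [h1]
  apply Finset.prod_biUnion
  intro i hi j hj hij
  have hi' := mem_range.mp (Finset.mem_coe.mp hi)
  have hj' := mem_range.mp (Finset.mem_coe.mp hj)
  exact (hd i hi' j hj' hij).mono inter_subset_right inter_subset_right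

/-- `Y_j` -/
noncomputable def Yw (B : ℕ → Finset ℕ) (b : ℕ → ℕ) (g : ℕ → ℝ) (j : ℕ) : ℝ :=
  ∑ k ∈ range (b j + 1), (-1 : ℝ) ^ k * ∑ A ∈ (B j).powersetCard k, ∏ p ∈ A, g p

/-- `Z_l` -/
noncomputable def Zw (B : ℕ → Finset ℕ) (b : ℕ → ℕ) (g : ℕ → ℝ) (l : ℕ) : ℝ :=
  ∑ A ∈ (B l).powersetCard (b l + 1), ∏ p ∈ A, g p

theorem sum_cw (B : ℕ → Finset ℕ) (b : ℕ → ℕ) (g : ℕ → ℝ) (j : ℕ) :
    ∑ A ∈ (B j).powerset, cw b j A.card * ∏ p ∈ A, g p = Yw B b g j := by
  rw [powerset_card_sum (B j) (b j) (cw b j) g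
    (fun k hk => by unfold cw; rw [if_neg (by omega)]), Yw]
  apply Finset.sum_congr rfl
  intro k hk
  have := mem_range.mp hk
  unfold cw
  rw [if_pos (by omega)]

theorem sum_ew (B : ℕ → Finset ℕ) (b : ℕ → ℕ) (g : ℕ → ℝ) (l : ℕ) :
    ∑ A ∈ (B l).powerset, ew b l A.card * ∏ p ∈ A, g p = Zw B b g l := by
  rw [powerset_card_sum (B l) (b l + 1) (ew b l) g
    (fun k hk => by unfold ew; rw [if_neg (by omega)]), Zw]
  rw [Finset.sum_eq_single_of_mem (b l + 1) (mem_range.mpr (by omega))]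
  · unfold ew
    rw [if_pos rfl, one_mul]
  · intro k _ hne
    unfold ew
    rw [if_neg hne, zero_mul]

theorem lw_sum (m : ℕ) (B : ℕ → Finset ℕ) (b : ℕ → ℕ)
    (hd : ∀ i < m, ∀ j < m, i ≠ j → Disjoint (B i) (B j)) (g : ℕ → ℝ) :
    ∑ A ∈ ((range m).biUnion B).powerset, lw m B b A * ∏ p ∈ A, g p =
      ∏ j ∈ range m, Yw B b g j -
        ∑ l ∈ range m, Zw B b g l * ∏ j ∈ (range m).erase l, Yw B b g j := by
  have key : ∀ A ∈ ((range m).biUnion B).powerset, lw m B b A * ∏ p ∈ A, g p =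
      ∏ j ∈ range m, (cw b j (A ∩ B j).card * ∏ p ∈ A ∩ B j, g p) -
      ∑ l ∈ range m, ∏ j ∈ range m, ((if j = l then ew b j (A ∩ B j).card else
        cw b j (A ∩ B j).card) * ∏ p ∈ A ∩ B j, g p) := by
    intro A hA
    have hA' := mem_powerset.mp hA
    rw [lw, sub_mul, Finset.prod_mul_distrib, ← prod_blocks m B hd g A hA', Finset.sum_mul]
    congr 1
    apply Finset.sum_congr rfl
    intro l hl
    rw [Finset.prod_mul_distrib, ← prod_blocks m B hd g A hA', ← Finset.mul_prod_erase _ _ hl,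
      if_pos rfl]
    congr 2
    apply Finset.prod_congr rfl
    intro j hj
    rw [if_neg (Finset.ne_of_mem_erase hj)]
  rw [Finset.sum_congr rfl key, Finset.sum_sub_distrib, Finset.sum_comm]
  congr 1
  · rw [sum_powerset_blocks m B hd (fun j A => cw b j A.card * ∏ p ∈ A, g p)]
    exact Finset.prod_congr rfl fun j _ => sum_cw B b g j
  · apply Finset.sum_congr rfl
    intro l hl
    rw [sum_powerset_blocks m B hd (fun j A => (if j = l then ew b j A.card else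
        cw b j A.card) * ∏ p ∈ A, g p), ← Finset.mul_prod_erase _ _ hl]
    congr 1
    · simp only [if_pos]
      exact sum_ew B b g l
    · apply Finset.prod_congr rfl
      intro j hj
      simp only [if_neg (Finset.ne_of_mem_erase hj)]
      exact sum_cw B b g j

theorem lw_upper (m : ℕ) (B : ℕ → Finset ℕ) (b : ℕ → ℕ) (hb : ∀ j, Even (b j))
    (hd : ∀ i < m, ∀ j < m, i ≠ j → Disjoint (B i) (B j)) (S : Finset ℕ)
    (hS : S ⊆ (range m).biUnion B) :
    ∑ A ∈ S.powerset, lw m B b A ≤ if S = ∅ then 1 else 0 := by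
  set B' : ℕ → Finset ℕ := fun j => S ∩ B j with hB'
  have hd' : ∀ i < m, ∀ j < m, i ≠ j → Disjoint (B' i) (B' j) := fun i hi j hj hij =>
    (hd i hi j hj hij).mono inter_subset_right inter_subset_right
  have hSU : (range m).biUnion B' = S := by
    ext p
    simp only [hB', mem_biUnion, mem_inter]
    constructor
    · rintro ⟨j, _, hp, _⟩
      exact hp
    · intro hp
      obtain ⟨j, hj, hpj⟩ := mem_biUnion.mp (hS hp)
      exact ⟨j, hj, hp, hpj⟩
  have hlw : ∀ A ∈ S.powerset, lw m B b A = lw m B' b A := by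
    intro A hA
    have hA' := mem_powerset.mp hA
    have : ∀ j, A ∩ B' j = A ∩ B j := by
      intro j
      simp only [hB', ← inter_assoc, inter_eq_left.mpr hA']
    simp only [lw, this]
  have h1 := lw_sum m B' b hd' (fun _ => 1)
  simp only [prod_const_one, mul_one] at h1
  rw [hSU] at h1
  rw [Finset.sum_congr rfl hlw, h1]
  have hY : ∀ j, Yw B' b (fun _ => 1) j =
      ∑ k ∈ range (b j + 1), (-1 : ℝ) ^ k * ((B' j).card.choose k : ℝ) := by
    intro j
    simp [Yw]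
  have hZ : ∀ l, Zw B' b (fun _ => 1) l = ((B' l).card.choose (b l + 1) : ℝ) := by
    intro l
    simp [Zw]
  set x : ℕ → ℝ := fun j => if (B' j).card = 0 then 1 else 0 with hx
  have hx0 : ∀ j, 0 ≤ x j := by
    intro j
    simp only [hx]
    split_ifs <;> norm_num
  have hxy : ∀ j, x j ≤ Yw B' b (fun _ => 1) j := by
    intro j
    rw [hY]
    exact bonf_lower (b j) (B' j).card (hb j)
  have hyx : ∀ j, Yw B' b (fun _ => 1) j - x j ≤ Zw B' b (fun _ => 1) j := by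
    intro j
    rw [hY, hZ]
    exact bonf_upper (b j) (B' j).card (hb j)
  have h2 := prod_sub_le (range m) x (Yw B' b fun _ => 1) (fun i _ => hx0 i) fun i _ => hxy i
  have h3 : ∑ l ∈ range m, (Yw B' b (fun _ => 1) l - x l) *
      ∏ j ∈ (range m).erase l, Yw B' b (fun _ => 1) j ≤
      ∑ l ∈ range m, Zw B' b (fun _ => 1) l *
      ∏ j ∈ (range m).erase l, Yw B' b (fun _ => 1) j := by
    apply Finset.sum_le_sum
    intro l _
    apply mul_le_mul_of_nonneg_right (hyx l)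
    exact Finset.prod_nonneg fun j _ => (hx0 j).trans (hxy j)
  have h4 : ∏ i ∈ range m, x i ≤ if S = ∅ then 1 else 0 := by
    split_ifs with hSe
    · exact Finset.prod_le_one (fun i _ => hx0 i) fun i _ => by
        simp only [hx]
        split_ifs <;> norm_num
    · obtain ⟨p, hp⟩ := Finset.nonempty_iff_ne_empty.mpr hSe
      obtain ⟨j, hj, hpj⟩ := mem_biUnion.mp (hS hp)
      have : x j = 0 := by
        simp only [hx]
        rw [if_neg]
        intro h0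
        have h00 := Finset.card_eq_zero.mp h0
        have : p ∈ B' j := mem_inter.mpr ⟨hp, hpj⟩
        rw [h00] at this
        exact absurd this (Finset.notMem_empty p)
      rw [Finset.prod_eq_zero hj this]
  linarith

theorem lw_lower (m : ℕ) (B : ℕ → Finset ℕ) (b : ℕ → ℕ) (hb : ∀ j, Even (b j))
    (hd : ∀ i < m, ∀ j < m, i ≠ j → Disjoint (B i) (B j)) (g : ℕ → ℝ)
    (hg : ∀ p ∈ (range m).biUnion B, 0 ≤ g p ∧ g p ≤ 1 / 2)
    (hs : ∑ j ∈ range m, (∑ p ∈ B j, g p) ^ (b j + 1) / ((b j + 1).factorial : ℝ) *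
      Real.exp (2 * ∑ p ∈ B j, g p) ≤ 1 / 2) :
    1 / 2 * ∏ p ∈ (range m).biUnion B, (1 - g p) ≤
      ∑ A ∈ ((range m).biUnion B).powerset, lw m B b A * ∏ p ∈ A, g p := by
  rw [lw_sum m B b hd g]
  have hgj : ∀ j ∈ range m, ∀ p ∈ B j, 0 ≤ g p ∧ g p ≤ 1 / 2 := fun j hj p hp =>
    hg p (mem_biUnion.mpr ⟨j, hj, hp⟩)
  have hV : ∀ j ∈ range m, Real.exp (-(2 * ∑ p ∈ B j, g p)) ≤ ∏ p ∈ B j, (1 - g p) :=
    fun j hj => exp_le_prod (B j) g (hgj j hj)
  have hYV : ∀ j ∈ range m, ∏ p ∈ B j, (1 - g p) ≤ Yw B b g j := fun j hj =>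
    bonf_prod (B j) g (fun p hp => ⟨(hgj j hj p hp).1, by linarith [(hgj j hj p hp).2]⟩) (b j) (hb j)
  have hY0 : ∀ j ∈ range m, 0 < Yw B b g j := fun j hj =>
    (Real.exp_pos _).trans_le ((hV j hj).trans (hYV j hj))
  have hZ0 : ∀ l ∈ range m, Zw B b g l ≤
      (∑ p ∈ B l, g p) ^ (b l + 1) / ((b l + 1).factorial : ℝ) := fun l hl =>
    esymm_le (B l) g (fun p hp => (hgj l hl p hp).1) (b l + 1)
  have hP0 : 0 < ∏ j ∈ range m, Yw B b g j := Finset.prod_pos hY0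
  have h1 : ∀ l ∈ range m, Zw B b g l * ∏ j ∈ (range m).erase l, Yw B b g j ≤
      ((∑ p ∈ B l, g p) ^ (b l + 1) / ((b l + 1).factorial : ℝ) *
        Real.exp (2 * ∑ p ∈ B l, g p)) * ∏ j ∈ range m, Yw B b g j := by
    intro l hl
    have hE0 : 0 ≤ ∏ j ∈ (range m).erase l, Yw B b g j :=
      Finset.prod_nonneg fun j hj => (hY0 j (Finset.mem_of_mem_erase hj)).le
    have h2 : (1 : ℝ) ≤ Real.exp (2 * ∑ p ∈ B l, g p) * Yw B b g l := by
      have h3 : Real.exp (-(2 * ∑ p ∈ B l, g p)) ≤ Yw B b g l := (hV l hl).trans (hYV l hl)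
      calc (1 : ℝ) = Real.exp (2 * ∑ p ∈ B l, g p) * Real.exp (-(2 * ∑ p ∈ B l, g p)) := by
            rw [← Real.exp_add, add_neg_cancel, Real.exp_zero]
        _ ≤ _ := mul_le_mul_of_nonneg_left h3 (Real.exp_pos _).le
    have hG0 : 0 ≤ (∑ p ∈ B l, g p) ^ (b l + 1) / ((b l + 1).factorial : ℝ) := by
      apply div_nonneg _ (Nat.cast_nonneg _)
      exact pow_nonneg (Finset.sum_nonneg fun p hp => (hgj l hl p hp).1) _
    calc Zw B b g l * ∏ j ∈ (range m).erase l, Yw B b g j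
        ≤ ((∑ p ∈ B l, g p) ^ (b l + 1) / ((b l + 1).factorial : ℝ)) *
          ∏ j ∈ (range m).erase l, Yw B b g j := mul_le_mul_of_nonneg_right (hZ0 l hl) hE0
      _ = ((∑ p ∈ B l, g p) ^ (b l + 1) / ((b l + 1).factorial : ℝ)) *
          (1 * ∏ j ∈ (range m).erase l, Yw B b g j) := by rw [one_mul]
      _ ≤ ((∑ p ∈ B l, g p) ^ (b l + 1) / ((b l + 1).factorial : ℝ)) *
          ((Real.exp (2 * ∑ p ∈ B l, g p) * Yw B b g l) *
            ∏ j ∈ (range m).erase l, Yw B b g j) :=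
          mul_le_mul_of_nonneg_left (mul_le_mul_of_nonneg_right h2 hE0) hG0
      _ = _ := by rw [← Finset.mul_prod_erase _ _ hl]; ring
  have h2 := Finset.sum_le_sum h1
  rw [← Finset.sum_mul] at h2
  have h3 := mul_le_mul_of_nonneg_right hs hP0.le
  have h4 : ∏ p ∈ (range m).biUnion B, (1 - g p) ≤ ∏ j ∈ range m, Yw B b g j := by
    rw [Finset.prod_biUnion]
    · exact Finset.prod_le_prod
        (fun j hj => (Real.exp_pos _).le.trans (hV j hj)) hYV
    · intro i hi j hj hij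
      exact hd i (mem_range.mp (Finset.mem_coe.mp hi)) j (mem_range.mp (Finset.mem_coe.mp hj)) hij
  linarith

/-- Brun-Hooley weights for given blocks -/
theorem core (m : ℕ) (B : ℕ → Finset ℕ) (b : ℕ → ℕ) (hb : ∀ j, Even (b j))
    (hd : ∀ i < m, ∀ j < m, i ≠ j → Disjoint (B i) (B j)) :
    ∃ lam : Finset ℕ → ℝ, (∀ A, |lam A| ≤ 1) ∧
      (∀ A, lam A ≠ 0 → ∀ j < m, (A ∩ B j).card ≤ b j + 1) ∧
      (∀ S ⊆ (range m).biUnion B, ∑ A ∈ S.powerset, lam A ≤ if S = ∅ then 1 else 0) ∧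
      (∀ g : ℕ → ℝ, (∀ p ∈ (range m).biUnion B, 0 ≤ g p ∧ g p ≤ 1 / 2) →
        (∑ j ∈ range m, (∑ p ∈ B j, g p) ^ (b j + 1) / ((b j + 1).factorial : ℝ) *
          Real.exp (2 * ∑ p ∈ B j, g p) ≤ 1 / 2) →
        1 / 2 * ∏ p ∈ (range m).biUnion B, (1 - g p) ≤
          ∑ A ∈ ((range m).biUnion B).powerset, lam A * ∏ p ∈ A, g p) :=
  ⟨lw m B b, abs_lw_le m B b, lw_card_le m B b, lw_upper m B b hb hd,
    lw_lower m B b hb hd⟩

end Pool.Agent.OmAP
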