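import Pool.Agent.Lib_MP_f1a94e_ap.Defs2

/-!
# MP_f1a94e_nt: the sum of the reciprocals of the primes between w and (w+1)^2 is bounded
-/

set_option autoImplicit false

namespace Pool.Agent.OmAP

open Finset

/-- a dyadic block -/
theorem recip_dyadic (L v : ℕ) (hL : 1 ≤ L) (hv : 2 ^ L ≤ v) :
    ∑ p ∈ (Ioc v (2 * v)).filter Nat.Prime, (1 : ℝ) / p ≤ 4 / (L : ℝ) := by
  set S := (Ioc v (2 * v)).filter Nat.Prime with hS
  have hvpos : 0 < v := lt_of_lt_of_le (by positivity) hv
  have hmem : ∀ p ∈ S, v < p ∧ p ≤ 2 * v ∧ p.Prime := by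
    intro p hp
    rw [hS, mem_filter, mem_Ioc] at hp
    exact ⟨hp.1.1, hp.1.2, hp.2⟩
  -- the number of primes
  have h1 : ∏ p ∈ S, p ≤ primorial (2 * v) := by
    unfold primorial
    apply Finset.prod_le_prod_of_subset_of_one_le'
    · intro p hp
      have := hmem p hp
      rw [mem_filter, mem_range]
      exact ⟨by omega, this.2.2⟩
    · intro p hp _
      exact (mem_filter.mp hp).2.one_lt.le
  have h2 : (2 ^ L) ^ S.card ≤ ∏ p ∈ S, p := by
    apply Finset.pow_card_le_prod
    intro p hp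
    have := hmem p hp
    omega
  have h3 : (2 ^ L) ^ S.card ≤ 2 ^ (4 * v) := by
    calc (2 ^ L) ^ S.card ≤ primorial (2 * v) := h2.trans h1
      _ ≤ 4 ^ (2 * v) := primorial_le_four_pow _
      _ = 2 ^ (4 * v) := by
        rw [show (4 : ℕ) = 2 ^ 2 by norm_num, ← pow_mul]
        congr 1
        ring
  have h4 : L * S.card ≤ 4 * v := by
    rw [← pow_mul] at h3
    exact (Nat.pow_le_pow_iff_right (by norm_num)).mp h3
  have h5 : ∑ p ∈ S, (1 : ℝ) / p ≤ S.card * (1 / (v : ℝ)) := by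
    rw [← nsmul_eq_mul]
    apply Finset.sum_le_card_nsmul
    intro p hp
    have := (hmem p hp).1
    apply one_div_le_one_div_of_le
    · exact_mod_cast hvpos
    · exact_mod_cast this.le
  have hL' : (0 : ℝ) < L := by exact_mod_cast hL
  have hv' : (0 : ℝ) < v := by exact_mod_cast hvpos
  refine h5.trans ?_
  rw [mul_one_div, div_le_div_iff₀ hv' hL']
  have h6 : ((L * S.card : ℕ) : ℝ) ≤ ((4 * v : ℕ) : ℝ) := by exact_mod_cast h4
  push_cast at h6
  linarith

/-- many dyadic blocks -/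
theorem recip_dyadic_iter (L w : ℕ) (hL : 1 ≤ L) (hw : 2 ^ L ≤ w) (i : ℕ) :
    ∑ p ∈ (Ioc w (2 ^ i * w)).filter Nat.Prime, (1 : ℝ) / p ≤ i * (4 / (L : ℝ)) := by
  induction i with
  | zero => simp
  | succ i ih =>
    have hi : 1 ≤ 2 ^ i := Nat.one_le_two_pow
    have hle : w ≤ 2 ^ i * w := Nat.le_mul_of_pos_left _ hi
    have hle2 : 2 ^ i * w ≤ 2 * (2 ^ i * w) := by omega
    have hun : (Ioc w (2 ^ (i + 1) * w)).filter Nat.Prime =
        (Ioc w (2 ^ i * w)).filter Nat.Prime ∪
          (Ioc (2 ^ i * w) (2 * (2 ^ i * w))).filter Nat.Prime := by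
      rw [← filter_union, Ioc_union_Ioc_eq_Ioc hle hle2]
      congr 2
      rw [pow_succ]
      ring
    rw [hun, sum_union]
    · have := recip_dyadic L (2 ^ i * w) hL (hw.trans hle)
      push_cast
      linarith
    · rw [disjoint_left]
      intro a ha hb
      rw [mem_filter, mem_Ioc] at ha hb
      omega

/-- sum of 1/p over a block between w and (w+1)^2 is bounded -/
theorem recip_block : ∃ B : ℝ, 0 < B ∧ ∀ w : ℕ,
    ∑ p ∈ (Ioc w ((w + 1) ^ 2)).filter Nat.Prime, (1 : ℝ) / p ≤ B := by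
  refine ⟨16, by norm_num, fun w => ?_⟩
  by_cases hw : w ≤ 1
  · have h1 : ∑ p ∈ (Ioc w ((w + 1) ^ 2)).filter Nat.Prime, (1 : ℝ) / p ≤
        ∑ p ∈ Ioc 0 4, (1 : ℝ) := by
      refine (Finset.sum_le_sum (f := fun p : ℕ => (1 : ℝ) / p) (g := fun _ => (1 : ℝ)) ?_).trans ?_
      · intro p hp
        have hp1 : 1 ≤ p := (mem_filter.mp hp).2.one_lt.le
        rw [div_le_one (by exact_mod_cast hp1)]
        exact_mod_cast hp1
      · apply Finset.sum_le_sum_of_subset_of_nonneg
        · intro p hp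
          rw [mem_filter, mem_Ioc] at hp
          rw [mem_Ioc]
          refine ⟨by omega, hp.1.2.trans ?_⟩
          nlinarith
        · intro _ _ _
          norm_num
    refine h1.trans ?_
    simp
    norm_num
  · push Not at hw
    set L := Nat.log 2 w with hLdef
    have hL : 1 ≤ L := by
      rw [hLdef]
      exact Nat.log_pos (by norm_num) hw
    have hwL : 2 ^ L ≤ w := Nat.pow_log_le_self 2 (by omega)
    have hwL2 : w < 2 ^ (L + 1) := Nat.lt_pow_succ_log_self (by norm_num) w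
    have h1 := recip_dyadic_iter L w hL hwL (L + 3)
    have hsub : (Ioc w ((w + 1) ^ 2)).filter Nat.Prime ⊆
        (Ioc w (2 ^ (L + 3) * w)).filter Nat.Prime := by
      apply filter_subset_filter
      apply Ioc_subset_Ioc_right
      have h2 : 4 * w ≤ 2 ^ (L + 3) := by
        rw [show L + 3 = (L + 1) + 2 by ring, pow_add]
        omega
      calc (w + 1) ^ 2 ≤ 4 * w * w := by nlinarith
        _ ≤ 2 ^ (L + 3) * w := Nat.mul_le_mul_right _ h2
    have h3 : ∑ p ∈ (Ioc w ((w + 1) ^ 2)).filter Nat.Prime, (1 : ℝ) / p ≤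
        ∑ p ∈ (Ioc w (2 ^ (L + 3) * w)).filter Nat.Prime, (1 : ℝ) / p := by
      apply Finset.sum_le_sum_of_subset_of_nonneg hsub
      intro _ _ _
      positivity
    refine h3.trans (h1.trans ?_)
    have hL' : (1 : ℝ) ≤ L := by exact_mod_cast hL
    rw [mul_div_assoc', div_le_iff₀ (by linarith)]
    push_cast
    linarith

end Pool.Agent.OmAP
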