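import Pool.Agent.Lib_MP_f1a94e_ap.BrunHooleyOf
import Pool.Agent.Lib_MP_f1a94e_ap.Recip
import Pool.Agent.Lib_MP_f1a94e_ap.Core

/-!
# MP_f1a94e_nt: Brun-Hooley lower bound sieve weights
-/

set_option autoImplicit false

namespace Pool.Agent.OmAP

open Finset ArithmeticFunction

/-- Brun-Hooley lower bound sieve weights of dimension `K` -/
theorem brun_hooley (K : ℕ) : ∃ C : ℕ, ∀ z : ℕ, 2 ≤ z → ∃ lam : Finset ℕ → ℝ,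
    (∀ A, |lam A| ≤ 1) ∧
    (∀ A ⊆ PP K z, lam A ≠ 0 → ∏ p ∈ A, p ≤ z ^ C) ∧
    (∀ S ⊆ PP K z, ∑ A ∈ S.powerset, lam A ≤ if S = ∅ then 1 else 0) ∧
    (∀ g : ℕ → ℝ, (∀ p ∈ PP K z, 0 ≤ g p ∧ g p ≤ (K : ℝ) / p) →
      1 / 2 * ∏ p ∈ PP K z, (1 - g p) ≤ ∑ A ∈ (PP K z).powerset, lam A * ∏ p ∈ A, g p) :=
  brun_hooley_of recip_block (fun m B b hb hd => core m B b hb hd) K

end Pool.Agent.OmAP
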