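import Pool.Agent.Lib_MP_f1a94e_ap.Defs2

/-!
# MP_f1a94e_nt: counting by the Chinese remainder theorem
-/

set_option autoImplicit false

namespace Pool.Agent.OmAP

open Finset ArithmeticFunction

theorem crt_count_one (q r T : ℕ) (hq : 0 < q) :
    |(((range T).filter fun t => t ≡ r [MOD q]).card : ℝ) - T / q| ≤ 1 := by
  have h1 : ((range T).filter fun t => t ≡ r [MOD q]).card =
      T / q + if r % q < T % q then 1 else 0 := by
    rw [← Nat.count_modEq_card T hq r, Nat.count_eq_card_filter_range]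
  have h2 : (T : ℝ) = q * (T / q : ℕ) + (T % q : ℕ) := by
    exact_mod_cast (Nat.div_add_mod T q).symm
  have hq' : (0 : ℝ) < q := by exact_mod_cast hq
  have h3 : ((T % q : ℕ) : ℝ) < q := by exact_mod_cast Nat.mod_lt T hq
  have h4 : (0 : ℝ) ≤ ((T % q : ℕ) : ℝ) := by positivity
  have h5 : (T : ℝ) / q = (T / q : ℕ) + (T % q : ℕ) / (q : ℝ) := by
    rw [div_eq_iff hq'.ne', add_mul, div_mul_cancel₀ _ hq'.ne']
    linarith
  have h6 : ((T % q : ℕ) : ℝ) / q < 1 := (div_lt_one hq').mpr h3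
  have h7 : 0 ≤ ((T % q : ℕ) : ℝ) / q := by positivity
  rw [h1, h5]
  push_cast
  split_ifs
  · rw [abs_le]; constructor <;> linarith
  · rw [abs_le]; constructor <;> linarith

theorem crt_count_aux (A : Finset ℕ) (Om : ℕ → Finset ℕ) (T : ℕ) : ∀ (q r : ℕ), 0 < q →
    (∀ p ∈ A, p.Prime) → (∀ p ∈ A, Nat.Coprime q p) → (∀ p ∈ A, Om p ⊆ range p) →
    |(((range T).filter fun t => t ≡ r [MOD q] ∧ ∀ p ∈ A, t % p ∈ Om p).card : ℝ) -
      T / q * ∏ p ∈ A, ((Om p).card : ℝ) / p| ≤ ∏ p ∈ A, ((Om p).card : ℝ) := by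
  classical
  induction A using Finset.induction_on with
  | empty =>
    intro q r hq _ _ _
    simpa using crt_count_one q r T hq
  | insert p A hpA ih =>
    intro q r hq hP hc hO
    have hp : p.Prime := hP p (mem_insert_self _ _)
    have hqp : Nat.Coprime q p := hc p (mem_insert_self _ _)
    have hOp : Om p ⊆ range p := hO p (mem_insert_self _ _)
    have hset : ((range T).filter fun t => t ≡ r [MOD q] ∧ ∀ p' ∈ insert p A, t % p' ∈ Om p') =
        (Om p).biUnion fun s => (range T).filter fun t =>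
          t ≡ ((Nat.chineseRemainder hqp r s : ℕ)) [MOD (q * p)] ∧ ∀ p' ∈ A, t % p' ∈ Om p' := by
      ext t
      simp only [mem_filter, mem_biUnion, mem_range, forall_mem_insert]
      constructor
      · rintro ⟨htT, htr, htp, htA⟩
        refine ⟨t % p, htp, htT, ?_, htA⟩
        refine (Nat.modEq_and_modEq_iff_modEq_mul hqp).mp ⟨?_, ?_⟩
        · exact htr.trans (Nat.chineseRemainder hqp r (t % p)).2.1.symm
        · exact (Nat.mod_modEq t p).symm.trans (Nat.chineseRemainder hqp r (t % p)).2.2.symm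
      · rintro ⟨s, hs, htT, hts, htA⟩
        obtain ⟨h1, h2⟩ := (Nat.modEq_and_modEq_iff_modEq_mul hqp).mpr hts
        refine ⟨htT, h1.trans (Nat.chineseRemainder hqp r s).2.1, ?_, htA⟩
        have h3 : t ≡ s [MOD p] := h2.trans (Nat.chineseRemainder hqp r s).2.2
        have h4 : t % p = s := by
          have := h3
          unfold Nat.ModEq at this
          rw [this]
          exact Nat.mod_eq_of_lt (mem_range.mp (hOp hs))
        rw [h4]; exact hs
    have hdisj : ∀ s ∈ Om p, ∀ s' ∈ Om p, s ≠ s' → Disjoint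
        ((range T).filter fun t =>
          t ≡ ((Nat.chineseRemainder hqp r s : ℕ)) [MOD (q * p)] ∧ ∀ p' ∈ A, t % p' ∈ Om p')
        ((range T).filter fun t =>
          t ≡ ((Nat.chineseRemainder hqp r s' : ℕ)) [MOD (q * p)] ∧ ∀ p' ∈ A, t % p' ∈ Om p') := by
      intro s hs s' hs' hne
      rw [Finset.disjoint_left]
      intro t ht ht'
      simp only [mem_filter] at ht ht'
      apply hne
      have h1 := ((Nat.modEq_and_modEq_iff_modEq_mul hqp).mpr ht.2.1).2.trans
        (Nat.chineseRemainder hqp r s).2.2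
      have h2 := ((Nat.modEq_and_modEq_iff_modEq_mul hqp).mpr ht'.2.1).2.trans
        (Nat.chineseRemainder hqp r s').2.2
      have h3 : s ≡ s' [MOD p] := h1.symm.trans h2
      exact Nat.ModEq.eq_of_lt_of_lt h3 (mem_range.mp (hOp hs)) (mem_range.mp (hOp hs'))
    rw [hset, card_biUnion hdisj, prod_insert hpA, prod_insert hpA]
    have hcop : ∀ p' ∈ A, Nat.Coprime (q * p) p' := by
      intro p' hp'
      refine Nat.Coprime.mul_left (hc p' (mem_insert_of_mem hp')) ?_
      refine (Nat.coprime_primes hp (hP p' (mem_insert_of_mem hp'))).mpr ?_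
      rintro rfl
      exact hpA hp'
    have key : ∀ s ∈ Om p, |(((range T).filter fun t =>
          t ≡ ((Nat.chineseRemainder hqp r s : ℕ)) [MOD (q * p)] ∧
            ∀ p' ∈ A, t % p' ∈ Om p').card : ℝ) -
        T / ((q * p : ℕ) : ℝ) * ∏ p' ∈ A, ((Om p').card : ℝ) / p'| ≤
          ∏ p' ∈ A, ((Om p').card : ℝ) := fun s _ =>
      ih (q * p) _ (Nat.mul_pos hq hp.pos) (fun p' hp' => hP p' (mem_insert_of_mem hp')) hcop
        (fun p' hp' => hO p' (mem_insert_of_mem hp'))
    have hp0 : (p : ℝ) ≠ 0 := by exact_mod_cast hp.pos.ne'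
    have hq0 : (q : ℝ) ≠ 0 := by exact_mod_cast hq.ne'
    have hmain : (T : ℝ) / q * (((Om p).card : ℝ) / p * ∏ p' ∈ A, ((Om p').card : ℝ) / p') =
        ∑ _s ∈ Om p, T / ((q * p : ℕ) : ℝ) * ∏ p' ∈ A, ((Om p').card : ℝ) / p' := by
      rw [sum_const, nsmul_eq_mul]
      push_cast
      field_simp
    have herr : ((Om p).card : ℝ) * ∏ p' ∈ A, ((Om p').card : ℝ) =
        ∑ _s ∈ Om p, ∏ p' ∈ A, ((Om p').card : ℝ) := by
      rw [sum_const, nsmul_eq_mul]
    rw [hmain, herr]
    push_cast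
    rw [← sum_sub_distrib]
    refine (abs_sum_le_sum_abs _ _).trans (sum_le_sum fun s hs => ?_)
    have := key s hs
    push_cast at this
    exact this

theorem crt_count (A : Finset ℕ) (hA : ∀ p ∈ A, p.Prime) (Om : ℕ → Finset ℕ)
    (hO : ∀ p ∈ A, Om p ⊆ range p) (T : ℕ) :
    |(((range T).filter fun t => ∀ p ∈ A, t % p ∈ Om p).card : ℝ) -
      T * ∏ p ∈ A, ((Om p).card : ℝ) / p| ≤ ∏ p ∈ A, ((Om p).card : ℝ) := by
  have h := crt_count_aux A Om T 1 0 one_pos hA (fun p _ => Nat.coprime_one_left p) hO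
  have h1 : ((range T).filter fun t => t ≡ 0 [MOD 1] ∧ ∀ p ∈ A, t % p ∈ Om p) =
      (range T).filter fun t => ∀ p ∈ A, t % p ∈ Om p := by
    apply filter_congr
    intro t _
    simp [Nat.modEq_one]
  rw [h1] at h
  simpa using h

end Pool.Agent.OmAP
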