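import Pool.Agent.Lib_MP_f1a94e_ap.Defs2

/-!
# MP_f1a94e_nt: a lower bound for the product of 1 - K/p
-/

set_option autoImplicit false

namespace Pool.Agent.OmAP

open Finset

/-- one factor -/
theorem factor_lower (K p : ℕ) (hp : 2 * K < p) :
    (1 - 1 / (p : ℝ)) ^ (2 * K) ≤ 1 - (K : ℝ) / p := by
  have hp1 : (1 : ℝ) ≤ p := by
    have : 1 ≤ p := by omega
    exact_mod_cast this
  have hp0 : (0 : ℝ) < p := by linarith
  have hK : (2 : ℝ) * K ≤ p := by exact_mod_cast hp.le
  set t : ℝ := (K : ℝ) / p with ht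
  have ht0 : 0 ≤ t := by positivity
  have ht1 : 2 * t ≤ 1 := by
    rw [ht, mul_div_assoc', div_le_one hp0]
    exact hK
  have h0 : 0 ≤ 1 - 1 / (p : ℝ) := by
    rw [sub_nonneg, div_le_one hp0]
    exact hp1
  have h1 : (1 - 1 / (p : ℝ)) ^ (2 * K) ≤ Real.exp (-(2 * t)) := by
    have h2 : 1 - 1 / (p : ℝ) ≤ Real.exp (-(1 / (p : ℝ))) := by
      have := Real.add_one_le_exp (-(1 / (p : ℝ)))
      linarith
    calc (1 - 1 / (p : ℝ)) ^ (2 * K) ≤ (Real.exp (-(1 / (p : ℝ)))) ^ (2 * K) :=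
          pow_le_pow_left₀ h0 h2 _
      _ = Real.exp (-(2 * t)) := by
        rw [← Real.exp_nat_mul]
        congr 1
        rw [ht]
        push_cast
        ring
  refine h1.trans ?_
  rw [Real.exp_neg]
  have h3 : 1 + 2 * t ≤ Real.exp (2 * t) := by
    have := Real.add_one_le_exp (2 * t)
    linarith
  have h4 : (Real.exp (2 * t))⁻¹ ≤ (1 + 2 * t)⁻¹ := inv_anti₀ (by linarith) h3
  refine h4.trans ?_
  rw [inv_le_iff_one_le_mul₀ (by linarith)]
  nlinarith

/-- the product of 1 - 1/p -/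
theorem prod_one_lower (K z : ℕ) (hz : 1 ≤ z) :
    1 / (z : ℝ) ≤ ∏ p ∈ PP K z, (1 - 1 / (p : ℝ)) := by
  induction z, hz using Nat.le_induction with
  | base =>
    have : PP K 1 = ∅ := by
      apply Finset.eq_empty_of_forall_notMem
      intro p hp
      rw [PP, mem_filter, mem_Ioc] at hp
      have := hp.2.two_le
      omega
    rw [this]
    simp
  | succ z hz ih =>
    have hz' : (1 : ℝ) ≤ z := by exact_mod_cast hz
    by_cases hm : 2 * K < z + 1 ∧ (z + 1).Prime
    · have hins : PP K (z + 1) = insert (z + 1) (PP K z) := by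
        ext p
        simp only [PP, mem_filter, mem_Ioc, mem_insert]
        constructor
        · rintro ⟨⟨h1, h2⟩, h3⟩
          by_cases h : p = z + 1
          · exact Or.inl h
          · exact Or.inr ⟨⟨h1, by omega⟩, h3⟩
        · rintro (h | ⟨⟨h1, h2⟩, h3⟩)
          · subst h
            exact ⟨⟨hm.1, le_refl _⟩, hm.2⟩
          · exact ⟨⟨h1, by omega⟩, h3⟩
      have hnot : z + 1 ∉ PP K z := by
        simp [PP]
      rw [hins, prod_insert hnot]
      have h1 : (1 : ℝ) - 1 / ((z + 1 : ℕ) : ℝ) = z / ((z : ℝ) + 1) := by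
        push_cast
        field_simp
        ring
      rw [h1]
      calc 1 / ((z + 1 : ℕ) : ℝ) = z / ((z : ℝ) + 1) * (1 / (z : ℝ)) := by
            push_cast
            field_simp
        _ ≤ _ := mul_le_mul_of_nonneg_left ih (by positivity)
    · have heq : PP K (z + 1) = PP K z := by
        ext p
        simp only [PP, mem_filter, mem_Ioc]
        constructor
        · rintro ⟨⟨h1, h2⟩, h3⟩
          refine ⟨⟨h1, ?_⟩, h3⟩
          by_contra h
          have : p = z + 1 := by omega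
          subst this
          exact hm ⟨h1, h3⟩
        · rintro ⟨⟨h1, h2⟩, h3⟩
          exact ⟨⟨h1, by omega⟩, h3⟩
      rw [heq]
      refine le_trans ?_ ih
      apply one_div_le_one_div_of_le (by linarith)
      push_cast
      linarith

theorem prod_lower (K z : ℕ) (hz : 1 ≤ z) :
    1 / (z : ℝ) ^ (2 * K) ≤ ∏ p ∈ PP K z, (1 - (K : ℝ) / p) := by
  have h1 : (1 / (z : ℝ)) ^ (2 * K) ≤ (∏ p ∈ PP K z, (1 - 1 / (p : ℝ))) ^ (2 * K) :=
    pow_le_pow_left₀ (by positivity) (prod_one_lower K z hz) _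
  have h2 : (1 / (z : ℝ)) ^ (2 * K) = 1 / (z : ℝ) ^ (2 * K) := by
    rw [div_pow, one_pow]
  rw [← h2]
  refine h1.trans ?_
  rw [← Finset.prod_pow]
  apply Finset.prod_le_prod
  · intro p hp
    rw [PP, mem_filter, mem_Ioc] at hp
    have hp1 : (1 : ℝ) ≤ p := by exact_mod_cast hp.2.one_lt.le
    apply pow_nonneg
    rw [sub_nonneg, div_le_one (by linarith)]
    exact hp1
  · intro p hp
    rw [PP, mem_filter, mem_Ioc] at hp
    exact factor_lower K p hp.1.1

end Pool.Agent.OmAP
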