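import Pool.Agent.Lib_MP_f1a94e_ap.Defs

/-!
# MP_f1a94e_nt: sieve definitions
-/

set_option autoImplicit false

namespace Pool.Agent.OmAP

open Finset

/-- the primes in `(2K, z]` -/
def PP (K z : ℕ) : Finset ℕ := (Ioc (2 * K) z).filter Nat.Prime

/-- `w + L t z` -/
def shift (L : ℤ) (t : ℕ) (z w : ℤ × ℤ) : ℤ × ℤ := (w.1 + L * t * z.1, w.2 + L * t * z.2)

end Pool.Agent.OmAP
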