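import Pool.Agent.Lib_MP_f1a94e_ap.Defs2

/-!
# MP_f1a94e_nt: asymptotic bookkeeping
-/

set_option autoImplicit false

namespace Pool.Agent.OmAP

open Finset ArithmeticFunction

theorem convert (P : ℕ → ℕ → Prop) (E : ℕ) (h : ∀ M : ℕ, 1 ≤ M → ∃ C R : ℕ, ∃ c : ℝ, 0 < c ∧
      ∀ᶠ y : ℕ in Filter.atTop,
        c * (y : ℝ) ^ (2 * M) ≤ Set.ncard {m : ℕ | m ≤ C * y ^ (2 * M + E) ∧ P R m})
    (δ : ℝ) (hδ : 0 < δ) : ∃ R : ℕ, ∀ᶠ N : ℕ in Filter.atTop,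
      (N : ℝ) ^ (1 / 2 - δ) ≤
        Set.ncard {k : ℕ | k ≤ N ∧ ∃ m : ℕ, k = m ^ 2 + 1 ∧ P R m} := by
  obtain ⟨M, hM⟩ := exists_nat_gt (max 1 ((E : ℝ) / (4 * δ)))
  have hM1 : 1 ≤ M := by
    have : (1 : ℝ) < M := lt_of_le_of_lt (le_max_left _ _) hM
    exact_mod_cast this.le
  have hME : (E : ℝ) < 4 * δ * M := by
    have : (E : ℝ) / (4 * δ) < M := lt_of_le_of_lt (le_max_right _ _) hM
    rw [div_lt_iff₀ (by positivity)] at this
    linarith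
  obtain ⟨C, R, c, hc, hev⟩ := h M hM1
  refine ⟨R, ?_⟩
  set k : ℕ := 2 * M + E with hk
  have hk2 : 2 ≤ k := by omega
  have hkR : (0 : ℝ) < k := by positivity
  set C1 : ℕ := C + 1 with hC1
  have hC1R : (1 : ℝ) ≤ C1 := by rw [hC1]; push_cast; linarith [(Nat.cast_nonneg C : (0 : ℝ) ≤ C)]
  set D : ℝ := 2 * C1 with hD
  have hD0 : 0 < D := by positivity
  have hD1 : 1 ≤ D := by linarith
  set e : ℝ := 1 / (2 * k) with he
  have he0 : 0 < e := by positivity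
  set Y : ℕ → ℕ := fun N => ⌊(N : ℝ) ^ e / D⌋₊ with hY
  have hpow : Filter.Tendsto (fun N : ℕ => (N : ℝ) ^ e) Filter.atTop Filter.atTop :=
    (tendsto_rpow_atTop he0).comp tendsto_natCast_atTop_atTop
  have hYt : Filter.Tendsto Y Filter.atTop Filter.atTop :=
    tendsto_nat_floor_atTop.comp (hpow.atTop_div_const hD0)
  -- final comparison of powers
  set a : ℝ := (M : ℝ) / k with ha
  have ha1 : 1 / 2 - δ < a := by
    rw [ha, lt_div_iff₀ hkR, hk]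
    push_cast
    have hE0 : (0 : ℝ) ≤ E := Nat.cast_nonneg E
    nlinarith
  set c' : ℝ := c / (2 * D) ^ (2 * M) with hc'
  have hc'0 : 0 < c' := by positivity
  have hfin : ∀ᶠ N : ℕ in Filter.atTop, (N : ℝ) ^ (1 / 2 - δ) ≤ c' * (N : ℝ) ^ a := by
    have h1 : Filter.Tendsto (fun N : ℕ => (N : ℝ) ^ (a - (1 / 2 - δ))) Filter.atTop
        Filter.atTop :=
      (tendsto_rpow_atTop (by linarith)).comp tendsto_natCast_atTop_atTop
    filter_upwards [h1.eventually_ge_atTop (1 / c'), Filter.eventually_ge_atTop 1] with N h2 h3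
    have hN : (0 : ℝ) < N := by exact_mod_cast h3
    have e1 : (N : ℝ) ^ a = (N : ℝ) ^ (a - (1 / 2 - δ)) * (N : ℝ) ^ (1 / 2 - δ) := by
      rw [← Real.rpow_add hN]
      congr 1
      ring
    rw [e1, ← mul_assoc]
    have h4 : 1 ≤ c' * (N : ℝ) ^ (a - (1 / 2 - δ)) := by
      rw [div_le_iff₀ hc'0] at h2
      linarith
    have h5 : 0 ≤ (N : ℝ) ^ (1 / 2 - δ) := by positivity
    nlinarith
  filter_upwards [hYt.eventually hev, hfin, hpow.eventually_ge_atTop (2 * D),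
    Filter.eventually_ge_atTop 2] with N h1 h2 h3 h4
  have hN2 : (2 : ℝ) ≤ N := by exact_mod_cast h4
  have hN0 : (0 : ℝ) < N := by linarith
  -- lower bound for `Y N`
  have hlow : (N : ℝ) ^ e / (2 * D) ≤ (Y N : ℝ) := by
    have h5 : (N : ℝ) ^ e / D < (Y N : ℝ) + 1 := Nat.lt_floor_add_one _
    have h6 : (N : ℝ) ^ e / (2 * D) = (N : ℝ) ^ e / D / 2 := by field_simp
    have h7 : 2 ≤ (N : ℝ) ^ e / D := by rw [le_div_iff₀ hD0]; exact h3
    rw [h6]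
    linarith
  have hlow2 : c' * (N : ℝ) ^ a ≤ c * (Y N : ℝ) ^ (2 * M) := by
    have h5 : ((N : ℝ) ^ e / (2 * D)) ^ (2 * M) ≤ (Y N : ℝ) ^ (2 * M) :=
      pow_le_pow_left₀ (by positivity) hlow _
    have h6 : ((N : ℝ) ^ e / (2 * D)) ^ (2 * M) = (N : ℝ) ^ a / (2 * D) ^ (2 * M) := by
      rw [div_pow, ← Real.rpow_natCast ((N : ℝ) ^ e), ← Real.rpow_mul hN0.le]
      congr 2
      rw [he, ha]
      push_cast
      field_simp
    calc c' * (N : ℝ) ^ a = c * ((N : ℝ) ^ a / (2 * D) ^ (2 * M)) := by rw [hc']; ring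
      _ ≤ c * (Y N : ℝ) ^ (2 * M) := by
        rw [← h6]
        exact mul_le_mul_of_nonneg_left h5 hc.le
  refine h2.trans (hlow2.trans (h1.trans ?_))
  -- upper bound for `Y N`
  have hup : (C1 * Y N ^ k) ^ 2 + 1 ≤ N := by
    have h5 : (Y N : ℝ) ≤ (N : ℝ) ^ e / D := Nat.floor_le (by positivity)
    have h6 : (Y N : ℝ) ^ (2 * k) ≤ ((N : ℝ) ^ e / D) ^ (2 * k) :=
      pow_le_pow_left₀ (Nat.cast_nonneg _) h5 _
    have h7 : ((N : ℝ) ^ e / D) ^ (2 * k) = (N : ℝ) / D ^ (2 * k) := by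
      rw [div_pow, ← Real.rpow_natCast ((N : ℝ) ^ e), ← Real.rpow_mul hN0.le]
      congr 1
      rw [he]
      push_cast
      have : 1 / (2 * (k : ℝ)) * (2 * k) = 1 := by field_simp
      rw [this, Real.rpow_one]
    have h8 : D ^ 2 ≤ D ^ (2 * k) := pow_le_pow_right₀ hD1 (by omega)
    have h9 : (Y N : ℝ) ^ (2 * k) ≤ N / D ^ 2 := by
      rw [h7] at h6
      refine h6.trans ?_
      exact div_le_div_of_nonneg_left hN0.le (by positivity) h8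
    have h10 : ((C1 : ℝ) * (Y N : ℝ) ^ k) ^ 2 ≤ N / 4 := by
      have e1 : ((C1 : ℝ) * (Y N : ℝ) ^ k) ^ 2 = (C1 : ℝ) ^ 2 * (Y N : ℝ) ^ (2 * k) := by
        rw [mul_pow, ← pow_mul, mul_comm k 2]
      rw [e1]
      calc (C1 : ℝ) ^ 2 * (Y N : ℝ) ^ (2 * k) ≤ (C1 : ℝ) ^ 2 * (N / D ^ 2) :=
            mul_le_mul_of_nonneg_left h9 (by positivity)
        _ = N / 4 := by rw [hD]; field_simp; norm_num
    have h11 : ((C1 : ℝ) * (Y N : ℝ) ^ k) ^ 2 + 1 ≤ N := by linarith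
    exact_mod_cast h11
  -- injection
  have hfinS : (Set.Finite {k : ℕ | k ≤ N ∧ ∃ m : ℕ, k = m ^ 2 + 1 ∧ P R m}) :=
    (Set.finite_Iic N).subset fun k hk => hk.1
  have hinj : Set.InjOn (fun m : ℕ => m ^ 2 + 1)
      {m : ℕ | m ≤ C * Y N ^ (2 * M + E) ∧ P R m} := by
    intro x _ y _ hxy
    simp only at hxy
    have : x ^ 2 = y ^ 2 := by omega
    exact (Nat.pow_left_injective (by norm_num : 2 ≠ 0)) this
  have hle := Set.ncard_le_ncard_of_injOn (s := {m : ℕ | m ≤ C * Y N ^ (2 * M + E) ∧ P R m})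
    (t := {k : ℕ | k ≤ N ∧ ∃ m : ℕ, k = m ^ 2 + 1 ∧ P R m}) (fun m : ℕ => m ^ 2 + 1)
    (by
      intro m hm
      refine ⟨?_, m, rfl, hm.2⟩
      have h5 : m ≤ C1 * Y N ^ k := by
        refine hm.1.trans ?_
        rw [hC1]
        exact Nat.mul_le_mul_right _ (Nat.le_succ C)
      have h6 : m ^ 2 ≤ (C1 * Y N ^ k) ^ 2 := Nat.pow_le_pow_left h5 2
      show m ^ 2 + 1 ≤ N
      omega) hinj hfinS
  exact_mod_cast hle

end Pool.Agent.OmAP
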