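import Pool.Agent.Lib_MP_f1a94e_ap.CountY
import Pool.Agent.Lib_MP_f1a94e_ap.Convert

/-!
# MP_f1a94e_nt: almost primes `m ^ 2 + 1` with `Ω` in a set of classes, from a certificate
-/

set_option autoImplicit false

namespace Pool.Agent.OmAP

open Finset ArithmeticFunction

theorem almost_prime {q : ℕ} {A : Set (ZMod q)} {Q : ℕ} (h : CertA q A Q) (δ : ℝ) (hδ : 0 < δ) :
    ∃ R : ℕ, ∀ᶠ N : ℕ in Filter.atTop, (N : ℝ) ^ (1 / 2 - δ) ≤
      Set.ncard {k : ℕ | k ≤ N ∧ ∃ m : ℕ, k = m ^ 2 + 1 ∧ Good q A Q R m} := by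
  obtain ⟨E, hE⟩ := count_y h
  exact convert (fun R m => Good q A Q R m) E hE δ hδ

/-- final form: all prime factors exceed `P0` -/
theorem almost_prime_rough {q : ℕ} {A : Set (ZMod q)} {P0 : ℕ} (h : CertA q A P0.factorial)
    (δ : ℝ) (hδ : 0 < δ) :
    ∃ R : ℕ, ∀ᶠ N : ℕ in Filter.atTop, (N : ℝ) ^ (1 / 2 - δ) ≤
      Set.ncard {k : ℕ | k ≤ N ∧ (∃ m : ℕ, Even m ∧ k = m ^ 2 + 1) ∧
        (∀ p : ℕ, p.Prime → p ∣ k → P0 < p) ∧ cardFactors k ≤ R ∧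
        ((cardFactors k : ℕ) : ZMod q) ∈ A ∧
        ∃ s r : ℕ, k = s * r ∧ s ≤ R ∧ ∀ p : ℕ, p.Prime → p ∣ r → k < p ^ R} := by
  set δ1 : ℝ := min δ (1 / 4) / 2 with hδ1
  have hmin : 0 < min δ (1 / 4) := lt_min hδ (by norm_num)
  have h1pos : 0 < δ1 := by rw [hδ1]; linarith
  have h1δ : 2 * δ1 ≤ δ := by
    have := min_le_left δ (1 / 4); rw [hδ1]; linarith
  have h14 : 2 * δ1 ≤ 1 / 4 := by
    have := min_le_right δ (1 / 4); rw [hδ1]; linarith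
  obtain ⟨R, hR⟩ := almost_prime h δ1 h1pos
  refine ⟨2 * R, ?_⟩
  have ev1 : ∀ᶠ N : ℕ in Filter.atTop, (2 : ℝ) ≤ (N : ℝ) ^ δ1 :=
    ((tendsto_rpow_atTop h1pos).comp tendsto_natCast_atTop_atTop).eventually_ge_atTop 2
  have ev2 : ∀ᶠ N : ℕ in Filter.atTop, ((P0 ^ (2 * R) + 1 : ℕ) : ℝ) ≤ (N : ℝ) ^ (1 / 4 : ℝ) :=
    ((tendsto_rpow_atTop (by norm_num : (0 : ℝ) < 1 / 4)).comp
      tendsto_natCast_atTop_atTop).eventually_ge_atTop _
  filter_upwards [hR, ev1, ev2, Filter.eventually_ge_atTop 1] with N hN h1 h2 h3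
  have hN1 : (1 : ℝ) ≤ N := by exact_mod_cast h3
  have hN0 : (0 : ℝ) < N := by linarith
  set S1 : Set ℕ := {k : ℕ | k ≤ N ∧ ∃ m : ℕ, k = m ^ 2 + 1 ∧ Good q A P0.factorial R m} with hS1
  set S2 : Set ℕ := {k : ℕ | k ≤ N ∧ (∃ m : ℕ, Even m ∧ k = m ^ 2 + 1) ∧
        (∀ p : ℕ, p.Prime → p ∣ k → P0 < p) ∧ cardFactors k ≤ 2 * R ∧
        ((cardFactors k : ℕ) : ZMod q) ∈ A ∧
        ∃ s r : ℕ, k = s * r ∧ s ≤ 2 * R ∧ ∀ p : ℕ, p.Prime → p ∣ r → k < p ^ (2 * R)} with hS2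
  have hfin2 : S2.Finite := (Set.finite_Iic N).subset fun k hk => hk.1
  have hsub : S1 ⊆ S2 ∪ ((Finset.range (P0 ^ (2 * R) + 1) : Finset ℕ) : Set ℕ) := by
    rintro k ⟨hkN, m, rfl, hev, hcard, hcls, s, r, hsr, hsR, hcop, hr⟩
    by_cases hbig : m ^ 2 + 1 < P0 ^ (2 * R) + 1
    · right
      rw [Finset.mem_coe, Finset.mem_range]
      exact hbig
    · left
      have hs0 : s ≠ 0 := by
        rintro rfl
        rw [zero_mul] at hsr
        omega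
      have hR1 : 1 ≤ R := by omega
      have hpr : ∀ p : ℕ, p.Prime → p ∣ r → m ^ 2 + 1 < p ^ (2 * R) := by
        intro p hp hpr
        have h4 := hr p hp hpr
        have h5 : 2 ≤ p ^ R := by
          calc 2 ≤ p := hp.two_le
            _ = p ^ 1 := (pow_one p).symm
            _ ≤ p ^ R := Nat.pow_le_pow_right hp.pos hR1
        have h6 : p ^ (2 * R) = p ^ R * p ^ R := by rw [two_mul, pow_add]
        rw [h6]
        nlinarith
      refine ⟨hkN, ⟨m, hev, rfl⟩, ?_, by omega, hcls, s, r, hsr, by omega, hpr⟩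
      intro p hp hpk
      rw [hsr] at hpk
      rcases hp.dvd_mul.mp hpk with h7 | h7
      · by_contra hle
        push Not at hle
        have h8 : p ∣ P0.factorial := Nat.dvd_factorial hp.pos hle
        have h9 := Nat.dvd_gcd h7 h8
        rw [hcop] at h9
        exact hp.one_lt.ne' (Nat.dvd_one.mp h9)
      · by_contra hle
        push Not at hle
        have h8 := hpr p hp h7
        have h9 : p ^ (2 * R) ≤ P0 ^ (2 * R) := Nat.pow_le_pow_left hle _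
        omega
  have hcard : S1.ncard ≤ S2.ncard + (P0 ^ (2 * R) + 1) := by
    have h4 := Set.ncard_le_ncard hsub (hfin2.union (Finset.finite_toSet _))
    have h5 := Set.ncard_union_le S2 ((Finset.range (P0 ^ (2 * R) + 1) : Finset ℕ) : Set ℕ)
    rw [Set.ncard_coe_finset, Finset.card_range] at h5
    exact h4.trans h5
  have hcard' : (S1.ncard : ℝ) ≤ S2.ncard + ((P0 ^ (2 * R) + 1 : ℕ) : ℝ) := by exact_mod_cast hcard
  have e1 : (N : ℝ) ^ (1 / 2 - δ1) = (N : ℝ) ^ (1 / 2 - 2 * δ1) * (N : ℝ) ^ δ1 := by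
    rw [← Real.rpow_add hN0]; congr 1; ring
  have e2 : (N : ℝ) ^ (1 / 4 : ℝ) ≤ (N : ℝ) ^ (1 / 2 - 2 * δ1) :=
    Real.rpow_le_rpow_of_exponent_le hN1 (by linarith)
  have e3 : (N : ℝ) ^ (1 / 2 - δ) ≤ (N : ℝ) ^ (1 / 2 - 2 * δ1) :=
    Real.rpow_le_rpow_of_exponent_le hN1 (by linarith)
  have e4 : 0 ≤ (N : ℝ) ^ (1 / 2 - 2 * δ1) := by positivity
  have e5 : 2 * (N : ℝ) ^ (1 / 2 - 2 * δ1) ≤ (N : ℝ) ^ (1 / 2 - δ1) := by
    rw [e1]; nlinarith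
  linarith

end Pool.Agent.OmAP
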