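import Pool.Agent.Lib_MP_f1a94e_ap.Defs2

/-!
# MP_f1a94e_nt: bases with congruence and size conditions
-/

set_option autoImplicit false

namespace Pool.Agent.OmAP

open Finset ArithmeticFunction

theorem exists_basis (L : ℕ) (hL : 0 < L) (z : ℤ × ℤ) (hz : IsCoprime z.1 z.2)
    (h1 : (L : ℤ) ∣ z.1 - 1) (h2 : (L : ℤ) ∣ z.2) :
    ∃ w : ℤ × ℤ, dt z w = 1 ∧ (L : ℤ) ∣ w.1 ∧ (L : ℤ) ∣ w.2 - 1 ∧
      nm w ≤ (L : ℤ) ^ 2 * nm z + 1 := by
  obtain ⟨a, b, hab⟩ := hz
  have hLz : (0 : ℤ) < L := by exact_mod_cast hL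
  have hnz : 0 < nm z := by
    unfold nm
    by_contra hcon
    push Not at hcon
    have e1 : z.1 = 0 := by nlinarith [sq_nonneg z.1, sq_nonneg z.2]
    have e2 : z.2 = 0 := by nlinarith [sq_nonneg z.1, sq_nonneg z.2]
    rw [e1, e2] at hab
    simp at hab
  set m : ℤ := L * nm z with hm
  have hm0 : 0 < m := mul_pos hLz hnz
  -- base point with k = b (as -a0 = b)
  set D0 : ℤ := z.1 * (-b + b * z.1) + z.2 * (a + b * z.2) with hD0
  set j : ℤ := -(D0 / m) with hj
  set k : ℤ := b + L * j with hk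
  refine ⟨(-b + k * z.1, a + k * z.2), ?_, ?_, ?_, ?_⟩
  · simp only [dt]
    linear_combination hab
  · have : -b + k * z.1 = L * j * z.1 + b * (z.1 - 1) := by rw [hk]; ring
    simp only
    rw [this]
    exact dvd_add (Dvd.dvd.mul_right (dvd_mul_right _ _) _) (Dvd.dvd.mul_left h1 _)
  · have : a + k * z.2 - 1 = k * z.2 - b * z.2 - a * (z.1 - 1) := by linear_combination hab
    simp only
    rw [this]
    exact dvd_sub (dvd_sub (Dvd.dvd.mul_left h2 _) (Dvd.dvd.mul_left h2 _)) (Dvd.dvd.mul_left h1 _)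
  · set w : ℤ × ℤ := (-b + k * z.1, a + k * z.2) with hw
    have hdt : dt z w = 1 := by
      simp only [dt, hw]
      linear_combination hab
    have hdp : dp z w = D0 % m := by
      have e1 : dp z w = D0 - m * (D0 / m) := by
        simp only [dp, hw, hk, hj, hD0, hm, nm]
        ring
      rw [e1]
      have := Int.emod_add_mul_ediv D0 m
      linarith
    have h3 := dp_sq_add_dt_sq z w
    rw [hdt, hdp] at h3
    have h4 : 0 ≤ D0 % m := Int.emod_nonneg _ hm0.ne'
    have h5 : D0 % m < m := Int.emod_lt_of_pos _ hm0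
    have h6 : (D0 % m) ^ 2 ≤ m ^ 2 := pow_le_pow_left₀ h4 h5.le 2
    have h7 : nm z * nm w ≤ nm z * ((L : ℤ) ^ 2 * nm z + 1) := by
      rw [hm] at h6
      nlinarith
    exact le_of_mul_le_mul_left h7 hnz

end Pool.Agent.OmAP
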