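import Pool.Agent.Lib_MP_f1a94e_ap.Defs2

/-!
# MP_f1a94e_nt: Brun-Hooley weights from the block lemma and the bound for reciprocals of primes
-/

set_option autoImplicit false

namespace Pool.Agent.OmAP

open Finset ArithmeticFunction

/-- statement of piece S1 -/
def RecipBlock : Prop := ∃ B : ℝ, 0 < B ∧ ∀ w : ℕ,
    ∑ p ∈ (Ioc w ((w + 1) ^ 2)).filter Nat.Prime, (1 : ℝ) / p ≤ B

/-- statement of piece S5 -/
def CoreStatement : Prop := ∀ (m : ℕ) (B : ℕ → Finset ℕ) (b : ℕ → ℕ) (_ : ∀ j, Even (b j))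
    (_ : ∀ i < m, ∀ j < m, i ≠ j → Disjoint (B i) (B j)),
    ∃ lam : Finset ℕ → ℝ, (∀ A, |lam A| ≤ 1) ∧
      (∀ A, lam A ≠ 0 → ∀ j < m, (A ∩ B j).card ≤ b j + 1) ∧
      (∀ S ⊆ (range m).biUnion B, ∑ A ∈ S.powerset, lam A ≤ if S = ∅ then 1 else 0) ∧
      (∀ g : ℕ → ℝ, (∀ p ∈ (range m).biUnion B, 0 ≤ g p ∧ g p ≤ 1 / 2) →
        (∑ j ∈ range m, (∑ p ∈ B j, g p) ^ (b j + 1) / ((b j + 1).factorial : ℝ) *
          Real.exp (2 * ∑ p ∈ B j, g p) ≤ 1 / 2) →
        1 / 2 * ∏ p ∈ (range m).biUnion B, (1 - g p) ≤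
          ∑ A ∈ ((range m).biUnion B).powerset, lam A * ∏ p ∈ A, g p)

/-- iterated integer square roots -/
def zs (z : ℕ) : ℕ → ℕ
  | 0 => z
  | j + 1 => Nat.sqrt (zs z j)

/-- the blocks of primes -/
def blk (K z j : ℕ) : Finset ℕ := (Ioc (zs z (j + 1)) (zs z j)).filter fun p => p.Prime ∧ 2 * K < p

theorem zs_succ_le (z j : ℕ) : zs z (j + 1) ≤ zs z j := Nat.sqrt_le_self _

theorem zs_anti (z : ℕ) : Antitone (zs z) := antitone_nat_of_succ_le (zs_succ_le z)

theorem zs_small (z j : ℕ) : zs z j ≤ 1 ∨ zs z j + j ≤ z := by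
  induction j with
  | zero => right; simp [zs]
  | succ j ih =>
    rcases ih with h | h
    · left; exact (zs_succ_le z j).trans h
    · by_cases h2 : zs z j ≤ 1
      · left; exact (zs_succ_le z j).trans h2
      · right
        have : zs z (j + 1) < zs z j := Nat.sqrt_lt_self (by omega)
        omega

theorem zs_end (z : ℕ) : zs z z ≤ 1 := by
  rcases zs_small z z with h | h <;> omega

theorem zs_pow_le (z j : ℕ) : zs z j ^ 2 ^ j ≤ z := by
  induction j with
  | zero => simp [zs]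
  | succ j ih =>
    calc zs z (j + 1) ^ 2 ^ (j + 1) = (zs z (j + 1) ^ 2) ^ 2 ^ j := by
          rw [← pow_mul, pow_succ, mul_comm]
      _ ≤ (zs z j) ^ 2 ^ j := Nat.pow_le_pow_left (Nat.sqrt_le' _) _
      _ ≤ z := ih

theorem blk_disjoint (K z : ℕ) {i j : ℕ} (hij : i < j) : Disjoint (blk K z i) (blk K z j) := by
  rw [Finset.disjoint_left]
  intro p hp hq
  simp only [blk, mem_filter, mem_Ioc] at hp hq
  have := zs_anti z (show i + 1 ≤ j from hij)
  omega

theorem blk_union (K z : ℕ) : (range z).biUnion (blk K z) = PP K z := by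
  ext p
  simp only [mem_biUnion, mem_range, blk, mem_filter, mem_Ioc, PP]
  constructor
  · rintro ⟨j, hj, ⟨h1, h2⟩, hp, hK⟩
    have := zs_anti z (Nat.zero_le j)
    have h0 : zs z 0 = z := rfl
    exact ⟨⟨hK, by omega⟩, hp⟩
  · rintro ⟨⟨hK, hpz⟩, hp⟩
    have hex : ∃ j, zs z j < p := ⟨z, lt_of_le_of_lt (zs_end z) hp.one_lt⟩
    classical
    have hlt := Nat.find_spec hex
    have hne : Nat.find hex ≠ 0 := by
      intro h0
      rw [h0] at hlt
      have h0 : zs z 0 = z := rfl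
      omega
    obtain ⟨j, hj⟩ := Nat.exists_eq_succ_of_ne_zero hne
    have hmin : ¬ zs z j < p := Nat.find_min hex (by omega)
    have hle : Nat.find hex ≤ z := Nat.find_min' hex (lt_of_le_of_lt (zs_end z) hp.one_lt)
    rw [hj] at hlt
    exact ⟨j, by omega, ⟨hlt, by omega⟩, hp, hK⟩

theorem zs_le_rpow (z : ℕ) (j : ℕ) : (zs z j : ℝ) ≤ (z : ℝ) ^ ((1 / 2 : ℝ) ^ j) := by
  have hz : (0 : ℝ) ≤ z := Nat.cast_nonneg z
  have h1 : (0 : ℝ) ≤ (z : ℝ) ^ ((1 / 2 : ℝ) ^ j) := Real.rpow_nonneg hz _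
  have h2 : (2 : ℕ) ^ j ≠ 0 := by positivity
  refine le_of_pow_le_pow_left₀ h2 h1 ?_
  rw [← Real.rpow_natCast ((z : ℝ) ^ ((1 / 2 : ℝ) ^ j)), ← Real.rpow_mul hz]
  have h3 : ((1 / 2 : ℝ) ^ j) * ((2 ^ j : ℕ) : ℝ) = 1 := by
    push_cast
    rw [← mul_pow]; norm_num
  rw [h3, Real.rpow_one]
  exact_mod_cast zs_pow_le z j

theorem sum_exponents (b0 m : ℕ) :
    ∑ j ∈ range m, (1 / 2 : ℝ) ^ j * ((b0 : ℝ) + 2 * j + 1) =
      (2 * b0 + 6) - (1 / 2 : ℝ) ^ m * (2 * b0 + 4 * m + 6) := by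
  induction m with
  | zero => simp
  | succ m ih =>
    rw [Finset.sum_range_succ, ih, pow_succ]
    push_cast
    ring

/-- Brun-Hooley lower bound sieve weights of dimension `K` -/
theorem brun_hooley_of (hrb : RecipBlock) (hcore : CoreStatement) (K : ℕ) : ∃ C : ℕ, ∀ z : ℕ, 2 ≤ z → ∃ lam : Finset ℕ → ℝ,
    (∀ A, |lam A| ≤ 1) ∧
    (∀ A ⊆ PP K z, lam A ≠ 0 → ∏ p ∈ A, p ≤ z ^ C) ∧
    (∀ S ⊆ PP K z, ∑ A ∈ S.powerset, lam A ≤ if S = ∅ then 1 else 0) ∧
    (∀ g : ℕ → ℝ, (∀ p ∈ PP K z, 0 ≤ g p ∧ g p ≤ (K : ℝ) / p) →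
      1 / 2 * ∏ p ∈ PP K z, (1 - g p) ≤ ∑ A ∈ (PP K z).powerset, lam A * ∏ p ∈ A, g p) := by
  obtain ⟨B, hB, hrec⟩ := hrb
  set X : ℝ := K * B with hX
  have hX0 : 0 ≤ X := by positivity
  have hsum : Summable fun n : ℕ => X ^ n / (n.factorial : ℝ) :=
    Real.summable_pow_div_factorial X
  have htail := tendsto_sum_nat_add fun n : ℕ => X ^ n / (n.factorial : ℝ)
  have hpos : (0 : ℝ) < Real.exp (-(2 * X)) / 2 := by positivity
  have hev := (htail.eventually (gt_mem_nhds hpos)).exists_forall_of_atTop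
  obtain ⟨N, hN⟩ := hev
  set b0 : ℕ := 2 * N with hb0
  have hNb := hN b0 (by omega)
  refine ⟨2 * b0 + 6, fun z hz => ?_⟩
  obtain ⟨lam, h1, h2, h3, h4⟩ := hcore z (blk K z) (fun j => b0 + 2 * j)
    (fun j => ⟨N + j, by omega⟩) (fun i _ j _ hij => by
      rcases Nat.lt_or_gt_of_ne hij with h | h
      · exact blk_disjoint K z h
      · exact (blk_disjoint K z h).symm)
  rw [blk_union] at h3 h4
  refine ⟨lam, h1, ?_, h3, ?_⟩
  · intro A hA hlam
    have hz0 : (0 : ℝ) < z := by exact_mod_cast (by omega : 0 < z)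
    have hz1 : (1 : ℝ) ≤ z := by exact_mod_cast (by omega : 1 ≤ z)
    have hAu : A = (range z).biUnion fun j => A ∩ blk K z j := by
      rw [← Finset.inter_biUnion, blk_union, Finset.inter_eq_left.mpr hA]
    have hreal : ((∏ p ∈ A, p : ℕ) : ℝ) ≤ (z : ℝ) ^ (2 * b0 + 6) := by
      calc ((∏ p ∈ A, p : ℕ) : ℝ) = ∏ j ∈ range z, ∏ p ∈ A ∩ blk K z j, (p : ℝ) := by
            push_cast
            conv_lhs => rw [hAu]
            rw [Finset.prod_biUnion]
            intro i _ j _ hij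
            rcases Nat.lt_or_gt_of_ne hij with h | h
            · exact (blk_disjoint K z h).mono Finset.inter_subset_right Finset.inter_subset_right
            · exact ((blk_disjoint K z h).symm).mono Finset.inter_subset_right
                Finset.inter_subset_right
        _ ≤ ∏ j ∈ range z, (z : ℝ) ^ ((1 / 2 : ℝ) ^ j * ((b0 : ℝ) + 2 * j + 1)) := by
            refine Finset.prod_le_prod (fun j _ => Finset.prod_nonneg fun p _ => Nat.cast_nonneg p)
              fun j hj => ?_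
            have hcard := h2 A hlam j (mem_range.mp hj)
            have hy1 : (1 : ℝ) ≤ (z : ℝ) ^ ((1 / 2 : ℝ) ^ j) :=
              Real.one_le_rpow hz1 (by positivity)
            calc ∏ p ∈ A ∩ blk K z j, (p : ℝ)
                ≤ ∏ p ∈ A ∩ blk K z j, (z : ℝ) ^ ((1 / 2 : ℝ) ^ j) := by
                  refine Finset.prod_le_prod (fun p _ => Nat.cast_nonneg p) fun p hp => ?_
                  have hp' : p ≤ zs z j := by
                    have := (Finset.mem_inter.mp hp).2
                    simp only [blk, mem_filter, mem_Ioc] at this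
                    exact this.1.2
                  exact (Nat.cast_le.mpr hp').trans (zs_le_rpow z j)
              _ = ((z : ℝ) ^ ((1 / 2 : ℝ) ^ j)) ^ (A ∩ blk K z j).card := by
                  rw [Finset.prod_const]
              _ ≤ ((z : ℝ) ^ ((1 / 2 : ℝ) ^ j)) ^ (b0 + 2 * j + 1) :=
                  pow_le_pow_right₀ hy1 hcard
              _ = (z : ℝ) ^ ((1 / 2 : ℝ) ^ j * ((b0 : ℝ) + 2 * j + 1)) := by
                  rw [← Real.rpow_natCast ((z : ℝ) ^ ((1 / 2 : ℝ) ^ j)),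
                    ← Real.rpow_mul hz0.le]
                  push_cast
                  rfl
        _ = (z : ℝ) ^ (∑ j ∈ range z, (1 / 2 : ℝ) ^ j * ((b0 : ℝ) + 2 * j + 1)) := by
            rw [Real.rpow_sum_of_pos hz0]
        _ ≤ (z : ℝ) ^ ((2 * b0 + 6 : ℕ) : ℝ) := by
            refine Real.rpow_le_rpow_of_exponent_le hz1 ?_
            rw [sum_exponents]
            push_cast
            have : (0 : ℝ) ≤ (1 / 2 : ℝ) ^ z * (2 * b0 + 4 * z + 6) := by positivity
            linarith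
        _ = (z : ℝ) ^ (2 * b0 + 6) := by rw [Real.rpow_natCast]
    exact_mod_cast hreal
  · intro g hg
    refine h4 g (fun p hp => ⟨(hg p hp).1, (hg p hp).2.trans ?_⟩) ?_
    · simp only [PP, mem_filter, mem_Ioc] at hp
      have hp0 : (0 : ℝ) < p := by exact_mod_cast hp.2.pos
      rw [div_le_div_iff₀ hp0 (by norm_num)]
      have : (2 * K : ℝ) ≤ p := by exact_mod_cast hp.1.1.le
      linarith
    · have hG : ∀ j ∈ range z, 0 ≤ ∑ p ∈ blk K z j, g p ∧ ∑ p ∈ blk K z j, g p ≤ X := by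
        intro j hj
        have hsub : ∀ p ∈ blk K z j, p ∈ PP K z := by
          intro p hp
          rw [← blk_union]
          exact Finset.mem_biUnion.mpr ⟨j, hj, hp⟩
        refine ⟨Finset.sum_nonneg fun p hp => (hg p (hsub p hp)).1, ?_⟩
        calc ∑ p ∈ blk K z j, g p ≤ ∑ p ∈ blk K z j, (K : ℝ) * (1 / p) := by
              refine Finset.sum_le_sum fun p hp => ?_
              have := (hg p (hsub p hp)).2
              rwa [← div_eq_mul_one_div]
          _ = K * ∑ p ∈ blk K z j, (1 : ℝ) / p := by rw [Finset.mul_sum]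
          _ ≤ K * ∑ p ∈ (Ioc (zs z (j + 1)) ((zs z (j + 1) + 1) ^ 2)).filter Nat.Prime,
                (1 : ℝ) / p := by
              refine mul_le_mul_of_nonneg_left ?_ (Nat.cast_nonneg K)
              refine Finset.sum_le_sum_of_subset_of_nonneg ?_ (fun _ _ _ => by positivity)
              intro p hp
              simp only [blk, mem_filter, mem_Ioc] at hp ⊢
              refine ⟨⟨hp.1.1, hp.1.2.trans ?_⟩, hp.2.1⟩
              have := Nat.lt_succ_sqrt' (zs z j)
              exact this.le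
          _ ≤ X := by
              rw [hX]
              exact mul_le_mul_of_nonneg_left (hrec _) (Nat.cast_nonneg K)
      calc ∑ j ∈ range z, (∑ p ∈ blk K z j, g p) ^ (b0 + 2 * j + 1) /
            ((b0 + 2 * j + 1).factorial : ℝ) * Real.exp (2 * ∑ p ∈ blk K z j, g p)
          ≤ ∑ j ∈ range z, X ^ (b0 + 2 * j + 1) / ((b0 + 2 * j + 1).factorial : ℝ) *
              Real.exp (2 * X) := by
            refine Finset.sum_le_sum fun j hj => ?_
            obtain ⟨hG0, hG1⟩ := hG j hj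
            gcongr
        _ = (∑ j ∈ range z, X ^ (b0 + 2 * j + 1) / ((b0 + 2 * j + 1).factorial : ℝ)) *
              Real.exp (2 * X) := by rw [Finset.sum_mul]
        _ ≤ (Real.exp (-(2 * X)) / 2) * Real.exp (2 * X) := by
            refine mul_le_mul_of_nonneg_right ?_ (Real.exp_pos _).le
            refine le_trans ?_ hNb.le
            have hs2 : Summable fun k : ℕ => X ^ (k + b0) / ((k + b0).factorial : ℝ) :=
              (summable_nat_add_iff b0).mpr hsum
            have := hs2.sum_le_tsum ((range z).image fun j => 2 * j + 1)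
              (fun k _ => by positivity)
            refine le_trans (le_of_eq ?_) this
            rw [Finset.sum_image (fun a _ b _ h => by simpa using h)]
            refine Finset.sum_congr rfl fun j _ => ?_
            rw [show 2 * j + 1 + b0 = b0 + 2 * j + 1 by ring]
        _ = 1 / 2 := by
            rw [Real.exp_neg]
            have := Real.exp_pos (2 * X)
            field_simp

end Pool.Agent.OmAP
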