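import Pool.Agent.Lib_MP_f1a94e_ap.Transfer

/-!
# MP_f1a94e_nt: certificates for a set of classes, with norms prime to `Q`
-/

set_option autoImplicit false

namespace Pool.Agent.OmAP

open Finset ArithmeticFunction

/-- Certificate for a set `A` of classes modulo `q`, all norms prime to `Q`. -/
def IsCertA (q : ℕ) (A : Set (ZMod q)) (Q : ℕ) (V : Finset (ℤ × ℤ)) : Prop :=
  (∀ u ∈ V, Odd (nm u) ∧ u.2 ≠ 0 ∧ (nm u).natAbs.Coprime Q) ∧
  ∀ X : ℤ × ℤ → ZMod q, ∃ u ∈ V, ∃ v ∈ V, dt u v ≠ 0 ∧ dt u v ∣ dp u v ∧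
    X u + X v - 2 * (om (dt u v) : ZMod q) ∈ A

/-- there is a certificate -/
def CertA (q : ℕ) (A : Set (ZMod q)) (Q : ℕ) : Prop := ∃ V : Finset (ℤ × ℤ), IsCertA q A Q V

/-- certificate on the line `{(i, i + 1)}` -/
def LineCertA (q : ℕ) (A : Set (ZMod q)) (Q : ℕ) : Prop :=
  ∃ N : ℕ, ∀ X : ℕ → ZMod q, ∃ i k : ℕ, 0 < k ∧ i + k ≤ N ∧ k ∣ 2 * i ^ 2 + 2 * i + 1 ∧
    Nat.Coprime (2 * i ^ 2 + 2 * i + 1) Q ∧
    Nat.Coprime (2 * (i + k) ^ 2 + 2 * (i + k) + 1) Q ∧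
    X i + X (i + k) - 2 * (cardFactors k : ZMod q) ∈ A

theorem nm_line (i : ℕ) : nm ((i : ℤ), (i : ℤ) + 1) = ((2 * i ^ 2 + 2 * i + 1 : ℕ) : ℤ) := by
  simp only [nm]; push_cast; ring

theorem CertA.of_line {q : ℕ} {A : Set (ZMod q)} {Q : ℕ} (h : LineCertA q A Q) : CertA q A Q := by
  obtain ⟨N, hN⟩ := h
  refine ⟨((range (N + 1)).filter fun i => Nat.Coprime (2 * i ^ 2 + 2 * i + 1) Q).image
    fun i : ℕ => ((i : ℤ), (i : ℤ) + 1), ?_, ?_⟩
  · intro u hu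
    obtain ⟨i, hi, rfl⟩ := Finset.mem_image.mp hu
    refine ⟨⟨(i : ℤ) ^ 2 + i, by simp only [nm]; ring⟩, ?_, ?_⟩
    · simp only
      omega
    · rw [nm_line, Int.natAbs_natCast]
      exact (mem_filter.mp hi).2
  · intro X
    obtain ⟨i, k, hk, hik, hdvd, hc1, hc2, hX⟩ := hN fun i => X ((i : ℤ), (i : ℤ) + 1)
    refine ⟨_, Finset.mem_image_of_mem _ (mem_filter.mpr
      ⟨Finset.mem_range.mpr (by omega : i < N + 1), hc1⟩),
      _, Finset.mem_image_of_mem _ (mem_filter.mpr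
      ⟨Finset.mem_range.mpr (by omega : i + k < N + 1), hc2⟩), ?_, ?_, ?_⟩
    · simp only [dt]; push_cast; intro h0; apply hk.ne'
      have : (k : ℤ) = 0 := by linear_combination -h0
      exact_mod_cast this
    · have h1 : dt ((i : ℤ), (i : ℤ) + 1) (((i + k : ℕ) : ℤ), ((i + k : ℕ) : ℤ) + 1) = -(k : ℤ) := by
        simp only [dt]; push_cast; ring
      have h2 : dp ((i : ℤ), (i : ℤ) + 1) (((i + k : ℕ) : ℤ), ((i + k : ℕ) : ℤ) + 1) =
          (2 * (i : ℤ) ^ 2 + 2 * i + 1) + k * (2 * i + 1) := by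
        simp only [dp]; push_cast; ring
      rw [h1, h2, neg_dvd]
      refine dvd_add ?_ (dvd_mul_right _ _)
      exact_mod_cast hdvd
    · have h1 : dt ((i : ℤ), (i : ℤ) + 1) (((i + k : ℕ) : ℤ), ((i + k : ℕ) : ℤ) + 1) = -(k : ℤ) := by
        simp only [dt]; push_cast; ring
      have h3 : om (-(k : ℤ)) = cardFactors k := by
        simp [om]
      rw [h1, h3]
      exact hX

theorem transferA {q : ℕ} {A : Set (ZMod q)} {Q : ℕ} {V : Finset (ℤ × ℤ)} (hV : IsCertA q A Q V)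
    (L : ℤ) (hL2 : 2 ∣ L) (hL : ∀ u ∈ V, ∀ v ∈ V, dt u v ≠ 0 → dt u v ∣ L) (z w : ℤ × ℤ)
    (hdet : dt z w = 1) (hz1 : L ∣ z.1 - 1) (hz2 : L ∣ z.2) (hw1 : L ∣ w.1) (hw2 : L ∣ w.2 - 1) :
    ∃ u ∈ V, ∃ v ∈ V, ∃ n : ℤ, dt u v ≠ 0 ∧ dt u v ∣ dp u v ∧
      dp (lin u z w) (lin v z w) = dt u v * n ∧ Even n ∧
      (om (n ^ 2 + 1) : ZMod q) ∈ A ∧
      om (n ^ 2 + 1) + 2 * om (dt u v) = om (nm (lin u z w)) + om (nm (lin v z w)) ∧
      om ((dt u v) ^ 2 * (n ^ 2 + 1)) = om (nm (lin u z w)) + om (nm (lin v z w)) ∧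
      nm (lin u z w) * nm (lin v z w) = (dt u v) ^ 2 * (n ^ 2 + 1) ∧
      n ^ 2 + 1 ≤ nm (lin u z w) * nm (lin v z w) := by
  obtain ⟨hodd, hX⟩ := hV
  obtain ⟨u, hu, v, hv, hD, hdvd, hsum⟩ := hX fun u => (om (nm (lin u z w)) : ZMod q)
  have h1 : dt u v ∣ dp (lin u z w) (lin v z w) := by
    have h2 : dt u v ∣ dp (lin u z w) (lin v z w) - dp u v :=
      (hL u hu v hv hD).trans (dp_lin_sub L u v z w hz1 hz2 hw1 hw2)
    have h3 := dvd_add h2 hdvd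
    rwa [sub_add_cancel] at h3
  obtain ⟨n, hn⟩ := h1
  have hmain : nm (lin u z w) * nm (lin v z w) = (dt u v) ^ 2 * (n ^ 2 + 1) := by
    have h4 := dp_sq_add_dt_sq (lin u z w) (lin v z w)
    rw [dt_lin, hdet, mul_one, hn] at h4
    linear_combination -h4
  have hodd' : ∀ t ∈ V, Odd (nm (lin t z w)) := by
    intro t ht
    obtain ⟨c, hc⟩ := hL2.trans (nm_lin_sub L t z w hz1 hz2 hw1 hw2)
    obtain ⟨d, hd⟩ := (hodd t ht).1
    exact ⟨c + d, by linear_combination hc + hd⟩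
  have hU := hodd' u hu
  have hW := hodd' v hv
  have hprod : Odd ((dt u v) ^ 2 * (n ^ 2 + 1)) := by
    rw [← hmain]; exact hU.mul hW
  have hn1 : Odd (n ^ 2 + 1) := (Int.odd_mul.mp hprod).2
  have hev : Even n := by
    by_contra hne
    rw [Int.not_even_iff_odd] at hne
    have h5 : Even (n ^ 2 + 1) := (hne.pow).add_odd odd_one
    exact (Int.not_even_iff_odd.mpr hn1) h5
  have hpos : (0 : ℤ) < n ^ 2 + 1 := by positivity
  have hU0 : nm (lin u z w) ≠ 0 := by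
    intro h0; rw [h0] at hU; exact absurd hU (by decide)
  have hW0 : nm (lin v z w) ≠ 0 := by
    intro h0; rw [h0] at hW; exact absurd hW (by decide)
  have hom : om (nm (lin u z w)) + om (nm (lin v z w)) = om ((dt u v) ^ 2 * (n ^ 2 + 1)) := by
    rw [← om_mul hU0 hW0, hmain]
  have hom2 : om ((dt u v) ^ 2 * (n ^ 2 + 1)) = 2 * om (dt u v) + om (n ^ 2 + 1) := by
    rw [om_mul (pow_ne_zero 2 hD) hpos.ne', om_sq hD]
  refine ⟨u, hu, v, hv, n, hD, hdvd, hn, hev, ?_, ?_, hom.symm, hmain, ?_⟩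
  · have h6 : ((om (nm (lin u z w)) + om (nm (lin v z w)) : ℕ) : ZMod q) =
        ((2 * om (dt u v) + om (n ^ 2 + 1) : ℕ) : ZMod q) := by rw [hom, hom2]
    push_cast at h6
    have h7 : (om (n ^ 2 + 1) : ZMod q) = (om (nm (lin u z w)) : ZMod q) +
        (om (nm (lin v z w)) : ZMod q) - 2 * (om (dt u v) : ZMod q) := by
      linear_combination -h6
    rw [h7]
    exact hsum
  · rw [hom, hom2]; ring
  · rw [hmain]
    have h7 : 1 ≤ (dt u v) ^ 2 := by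
      have h8 : 0 < (dt u v) ^ 2 := by positivity
      omega
    nlinarith

end Pool.Agent.OmAP
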