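import Pool.Agent.Lib_MP_f1a94e_ap.Defs2

/-!
# MP_f1a94e_nt: many primitive vectors
-/

set_option autoImplicit false

namespace Pool.Agent.OmAP

open Finset ArithmeticFunction

/-- residue class bound: the number of `x ∈ [1, N]` with `p ∣ 1 + L x` -/
theorem count_class (L N p : ℕ) (hp : p.Prime) (hL : ¬ p ∣ L) (hpN : p ≤ N) :
    (((Icc 1 N).filter fun x => p ∣ 1 + L * x).card : ℝ) ≤ 2 * N / p := by
  classical
  have hp0 : (0 : ℝ) < p := by exact_mod_cast hp.pos
  have h1 : ((Icc 1 N).filter fun x => p ∣ 1 + L * x).card ≤ N / p + 1 := by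
    have hmap : ∀ x ∈ (Icc 1 N).filter (fun x => p ∣ 1 + L * x), x / p ∈ range (N / p + 1) := by
      intro x hx
      rw [mem_filter, mem_Icc] at hx
      rw [mem_range]
      exact Nat.lt_succ_of_le (Nat.div_le_div_right hx.1.2)
    have hinj : Set.InjOn (fun x => x / p) ((Icc 1 N).filter (fun x => p ∣ 1 + L * x) : Finset ℕ) := by
      intro x hx y hy hxy
      simp only [coe_filter, mem_Icc, Set.mem_ofPred_eq] at hx hy
      have h2 : (p : ℤ) ∣ (L : ℤ) * ((x : ℤ) - y) := by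
        have hx' : (p : ℤ) ∣ 1 + L * x := by exact_mod_cast hx.2
        have hy' : (p : ℤ) ∣ 1 + L * y := by exact_mod_cast hy.2
        have := dvd_sub hx' hy'
        have h3 : (1 + (L : ℤ) * x - (1 + L * y)) = L * (x - y) := by ring
        rwa [h3] at this
      have hpI : Prime (p : ℤ) := Nat.prime_iff_prime_int.mp hp
      have h4 : (p : ℤ) ∣ (x : ℤ) - y := by
        rcases hpI.dvd_or_dvd h2 with h | h
        · exact absurd (by exact_mod_cast h) hL
        · exact h
      have h5 : x % p = y % p := by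
        have : (y : ℤ) ≡ x [ZMOD p] := (Int.modEq_iff_dvd).mpr h4
        have := (Int.natCast_modEq_iff).mp this
        exact this.symm
      have h6 := Nat.div_add_mod x p
      have h7 := Nat.div_add_mod y p
      simp only at hxy
      rw [← h6, ← h7, hxy, h5]
    calc ((Icc 1 N).filter fun x => p ∣ 1 + L * x).card
        ≤ (range (N / p + 1)).card := card_le_card_of_injOn _ hmap hinj
      _ = N / p + 1 := card_range _
  have h2 : (1 : ℝ) ≤ N / p := by
    rw [le_div_iff₀ hp0, one_mul]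
    exact_mod_cast hpN
  have h3 : ((N / p : ℕ) : ℝ) ≤ N / p := Nat.cast_div_le
  calc (((Icc 1 N).filter fun x => p ∣ 1 + L * x).card : ℝ)
      ≤ ((N / p + 1 : ℕ) : ℝ) := by exact_mod_cast h1
    _ = ((N / p : ℕ) : ℝ) + 1 := by push_cast; ring
    _ ≤ N / p + N / p := add_le_add h3 h2
    _ = 2 * N / p := by ring

theorem count_mult (L N p : ℕ) (hp : p.Prime) (hL : ¬ p ∣ L) :
    (((Icc 1 N).filter fun y => p ∣ L * y).card : ℝ) ≤ N / p := by
  classical
  have h1 : ((Icc 1 N).filter fun y => p ∣ L * y) = (Ioc 0 N).filter fun y => p ∣ y := by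
    have h0 : Icc 1 N = Ioc 0 N := by
      ext x; simp only [mem_Icc, mem_Ioc]; omega
    rw [h0]
    apply filter_congr
    intro y _
    constructor
    · intro h
      exact (hp.dvd_mul.mp h).resolve_left hL
    · intro h
      exact h.mul_left _
  rw [h1, Nat.Ioc_filter_dvd_card_eq_div]
  exact Nat.cast_div_le

theorem sum_inv_sq (N : ℕ) : ∑ m ∈ Icc 5 N, (1 : ℝ) / (m : ℝ) ^ 2 ≤ 1 / 4 := by
  have h : ∀ n : ℕ, ∑ m ∈ Icc 5 (n + 4), (1 : ℝ) / (m : ℝ) ^ 2 ≤ 1 / 4 - 1 / ((n : ℝ) + 4) := by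
    intro n
    induction n with
    | zero => simp
    | succ n ih =>
      have h1 : Icc 5 (n + 1 + 4) = insert (n + 5) (Icc 5 (n + 4)) := by
        ext x; simp only [mem_Icc, mem_insert]; omega
      rw [h1, sum_insert (by simp)]
      have h2 : (1 : ℝ) / ((n + 5 : ℕ) : ℝ) ^ 2 ≤ 1 / ((n : ℝ) + 4) - 1 / ((n : ℝ) + 5) := by
        have h3 : (0 : ℝ) < (n : ℝ) + 4 := by positivity
        have h4 : (0 : ℝ) < (n : ℝ) + 5 := by positivity
        have h5 : 1 / ((n : ℝ) + 4) - 1 / ((n : ℝ) + 5) = 1 / (((n : ℝ) + 4) * ((n : ℝ) + 5)) := by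
          field_simp; ring
        rw [h5]
        push_cast
        apply one_div_le_one_div_of_le (by positivity)
        nlinarith
      push_cast at h2 ⊢
      have h6 : (n : ℝ) + 1 + 4 = (n : ℝ) + 5 := by ring
      rw [h6]
      linarith
  rcases Nat.lt_or_ge N 4 with hN | hN
  · have : Icc 5 N = ∅ := by
      ext x; simp only [mem_Icc, notMem_empty, iff_false]; omega
    rw [this]; norm_num
  · obtain ⟨n, rfl⟩ := Nat.exists_eq_add_of_le' hN
    refine (h n).trans ?_
    have : (0 : ℝ) ≤ 1 / ((n : ℝ) + 4) := by positivity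
    linarith

theorem count_prim (L N : ℕ) (h2 : 2 ∣ L) (h3 : 3 ∣ L) :
    (N : ℝ) ^ 2 / 2 ≤
      (((Icc 1 N ×ˢ Icc 1 N).filter fun t : ℕ × ℕ => Nat.Coprime (1 + L * t.1) (L * t.2)).card : ℝ) := by
  classical
  set bad := (Icc 1 N ×ˢ Icc 1 N).filter fun t : ℕ × ℕ => ¬ Nat.Coprime (1 + L * t.1) (L * t.2)
    with hbad
  have htot : (((Icc 1 N ×ˢ Icc 1 N).filter
      fun t : ℕ × ℕ => Nat.Coprime (1 + L * t.1) (L * t.2)).card : ℝ) + (bad.card : ℝ) =
      (N : ℝ) ^ 2 := by
    have := card_filter_add_card_filter_not (s := Icc 1 N ×ˢ Icc 1 N)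
      (fun t : ℕ × ℕ => Nat.Coprime (1 + L * t.1) (L * t.2))
    rw [card_product, Nat.card_Icc] at this
    have h4 : (N + 1 - 1) * (N + 1 - 1) = N ^ 2 := by rw [Nat.add_sub_cancel]; ring
    rw [h4] at this
    exact_mod_cast this
  set PS := (Icc 5 N).filter fun p => p.Prime ∧ ¬ p ∣ L with hPS
  have hsub : bad ⊆ PS.biUnion fun p =>
      ((Icc 1 N).filter fun x => p ∣ 1 + L * x) ×ˢ ((Icc 1 N).filter fun y => p ∣ L * y) := by
    intro t ht
    rw [hbad, mem_filter, mem_product] at ht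
    obtain ⟨⟨ht1, ht2⟩, hnc⟩ := ht
    obtain ⟨p, hp, hp1, hp2⟩ := Nat.Prime.not_coprime_iff_dvd.mp hnc
    have hpL : ¬ p ∣ L := by
      intro h
      have h5 : p ∣ 1 := (Nat.dvd_add_left (h.mul_right _)).mp hp1
      exact hp.one_lt.ne' (Nat.dvd_one.mp h5)
    have hpy : p ∣ t.2 := (hp.dvd_mul.mp hp2).resolve_left hpL
    have ht2' := mem_Icc.mp ht2
    have hpN : p ≤ N := (Nat.le_of_dvd (by omega) hpy).trans ht2'.2
    have hp5 : 5 ≤ p := by
      by_contra hlt
      have hlt' : p < 5 := not_le.mp hlt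
      have h22 := hp.two_le
      interval_cases p
      · exact hpL h2
      · exact hpL h3
      · exact absurd hp (by decide)
    rw [mem_biUnion]
    refine ⟨p, ?_, ?_⟩
    · rw [hPS, mem_filter, mem_Icc]
      exact ⟨⟨hp5, hpN⟩, hp, hpL⟩
    · rw [mem_product, mem_filter, mem_filter]
      exact ⟨⟨ht1, hp1⟩, ht2, hp2⟩
  have hbound : (bad.card : ℝ) ≤ (N : ℝ) ^ 2 / 2 := by
    calc (bad.card : ℝ) ≤ ((PS.biUnion fun p =>
          ((Icc 1 N).filter fun x => p ∣ 1 + L * x) ×ˢ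
            ((Icc 1 N).filter fun y => p ∣ L * y)).card : ℝ) := by
          exact_mod_cast card_le_card hsub
      _ ≤ ∑ p ∈ PS, ((((Icc 1 N).filter fun x => p ∣ 1 + L * x) ×ˢ
            ((Icc 1 N).filter fun y => p ∣ L * y)).card : ℝ) := by
          exact_mod_cast card_biUnion_le
      _ ≤ ∑ p ∈ PS, 2 * (N : ℝ) ^ 2 * (1 / (p : ℝ) ^ 2) := by
          refine sum_le_sum fun p hp => ?_
          rw [hPS, mem_filter, mem_Icc] at hp
          obtain ⟨⟨_, hpN⟩, hpp, hpL⟩ := hp
          rw [card_product]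
          push_cast
          have h6 := count_class L N p hpp hpL hpN
          have h7 := count_mult L N p hpp hpL
          have hp0 : (0 : ℝ) < p := by exact_mod_cast hpp.pos
          calc (((Icc 1 N).filter fun x => p ∣ 1 + L * x).card : ℝ) *
                (((Icc 1 N).filter fun y => p ∣ L * y).card : ℝ)
              ≤ (2 * N / p) * (N / p) := mul_le_mul h6 h7 (by positivity) (by positivity)
            _ = 2 * (N : ℝ) ^ 2 * (1 / (p : ℝ) ^ 2) := by field_simp
      _ ≤ ∑ p ∈ Icc 5 N, 2 * (N : ℝ) ^ 2 * (1 / (p : ℝ) ^ 2) := by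
          apply sum_le_sum_of_subset_of_nonneg (filter_subset _ _)
          intro i _ _
          positivity
      _ = 2 * (N : ℝ) ^ 2 * ∑ p ∈ Icc 5 N, (1 / (p : ℝ) ^ 2) := by rw [mul_sum]
      _ ≤ 2 * (N : ℝ) ^ 2 * (1 / 4) := by
          apply mul_le_mul_of_nonneg_left (sum_inv_sq N) (by positivity)
      _ = (N : ℝ) ^ 2 / 2 := by ring
  linarith

end Pool.Agent.OmAP
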