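import Pool.Agent.Lib_MP_f1a94e_ap.Defs2

/-!
# MP_f1a94e_nt, piece R4: multiplicity bound
-/

set_option autoImplicit false

namespace Pool.Agent.OmAP

open Finset ArithmeticFunction

/-- the number of divisors is at most `2 ^ Ω` -/
theorem mult_card_divisors (N : ℕ) (hN : N ≠ 0) :
    N.divisors.card ≤ 2 ^ cardFactors N := by
  induction N using Nat.recOnMul with
  | zero => exact absurd rfl hN
  | one => simp
  | prime p hp => 
    rw [cardFactors_apply_prime hp, Nat.Prime.divisors hp]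
    exact Finset.card_le_two
  | mul a b ha hb => 
    have ha0 : a ≠ 0 := left_ne_zero_of_mul hN
    have hb0 : b ≠ 0 := right_ne_zero_of_mul hN
    rw [cardFactors_mul ha0 hb0, pow_add, Nat.divisors_mul]
    exact (Finset.card_mul_le).trans (Nat.mul_le_mul (ha ha0) (hb hb0))

theorem mult_fiber_bound (D n g : ℤ) (hD : D ≠ 0) (hg : 0 < g) (S : Finset (ℤ × ℤ))
    (hS : ∀ U ∈ S, nm U = g ∧ g ∣ D * (n * U.1 - U.2) ∧ g ∣ D * (n * U.2 + U.1)) :
    S.card ≤ (4 * D.natAbs + 1) ^ 2 := by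
  rcases S.eq_empty_or_nonempty with h | ⟨U₀, h₀⟩
  · simp [h]
  obtain ⟨h1, h2, h3⟩ := hS U₀ h₀
  -- the box
  let T : Finset (ℤ × ℤ) := (Icc (-(2 * (D.natAbs : ℤ))) (2 * D.natAbs)) ×ˢ
    (Icc (-(2 * (D.natAbs : ℤ))) (2 * D.natAbs))
  have hT : T.card = (4 * D.natAbs + 1) ^ 2 := by
    simp only [T, Finset.card_product, Int.card_Icc]
    have : (2 * (D.natAbs : ℤ) + 1 - -(2 * (D.natAbs : ℤ))).toNat = 4 * D.natAbs + 1 := by omega
    rw [this]; ring
  rw [← hT]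
  have hdiv : ∀ U ∈ S, g ∣ 2 * D * dp U₀ U ∧ g ∣ 2 * D * dt U₀ U := by
    intro U hU
    obtain ⟨h4, h5, h6⟩ := hS U hU
    obtain ⟨p, hp⟩ := h2
    obtain ⟨q, hq⟩ := h3
    obtain ⟨r, hr⟩ := h5
    obtain ⟨s, hs⟩ := h6
    constructor
    · -- g | D (n B + A) - D (n B - A)
      refine ⟨(U₀.1 * s - U₀.2 * r) - (U.2 * p - U.1 * q), ?_⟩
      simp only [dp]
      linear_combination U₀.1 * hs - U₀.2 * hr - U.2 * hp + U.1 * hq
    · -- g | D (n A + B) - D (n A - B)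
      refine ⟨(U.1 * p + U.2 * q) - (U₀.1 * r + U₀.2 * s), ?_⟩
      simp only [dt]
      linear_combination U.1 * hp + U.2 * hq - U₀.1 * hr - U₀.2 * hs
  have hsq : ∀ U ∈ S, dp U₀ U ^ 2 + dt U₀ U ^ 2 = g ^ 2 := by
    intro U hU
    rw [dp_sq_add_dt_sq, h1, (hS U hU).1, sq]
  refine Finset.card_le_card_of_injOn
    (fun U => (2 * D * dp U₀ U / g, 2 * D * dt U₀ U / g)) ?_ ?_
  · intro U hU
    have hU' : U ∈ S := hU
    obtain ⟨⟨a, ha⟩, ⟨b, hb⟩⟩ := hdiv U hU'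
    have hg0 : g ≠ 0 := hg.ne'
    have e1 : 2 * D * dp U₀ U / g = a := by rw [ha]; exact Int.mul_ediv_cancel_left _ hg0
    have e2 : 2 * D * dt U₀ U / g = b := by rw [hb]; exact Int.mul_ediv_cancel_left _ hg0
    have hab : a ^ 2 + b ^ 2 = (2 * D) ^ 2 := by
      have h7 : g ^ 2 * (a ^ 2 + b ^ 2) = g ^ 2 * (2 * D) ^ 2 := by
        have := hsq U hU'
        calc g ^ 2 * (a ^ 2 + b ^ 2) = (g * a) ^ 2 + (g * b) ^ 2 := by ring
          _ = (2 * D * dp U₀ U) ^ 2 + (2 * D * dt U₀ U) ^ 2 := by rw [ha, hb]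
          _ = (2 * D) ^ 2 * (dp U₀ U ^ 2 + dt U₀ U ^ 2) := by ring
          _ = g ^ 2 * (2 * D) ^ 2 := by rw [this]; ring
      exact mul_left_cancel₀ (pow_ne_zero 2 hg0) h7
    have hD2 : (2 * D) ^ 2 = (2 * (D.natAbs : ℤ)) ^ 2 := by
      rw [mul_pow, mul_pow, Int.natAbs_sq]
    have ha' : |a| ≤ 2 * (D.natAbs : ℤ) := by
      apply abs_le_of_sq_le_sq _ (by positivity)
      nlinarith [sq_nonneg b]
    have hb' : |b| ≤ 2 * (D.natAbs : ℤ) := by
      apply abs_le_of_sq_le_sq _ (by positivity)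
      nlinarith [sq_nonneg a]
    rw [abs_le] at ha' hb'
    simp only [T, Finset.coe_product, Set.mem_prod, Finset.coe_Icc, Set.mem_Icc, e1, e2]
    exact ⟨ha', hb'⟩
  · intro U hU W hW hUW
    have hU' : U ∈ S := hU
    have hW' : W ∈ S := hW
    simp only [Prod.mk.injEq] at hUW
    have hg0 : g ≠ 0 := hg.ne'
    have e1 : 2 * D * dp U₀ U = 2 * D * dp U₀ W := by
      rw [← Int.ediv_mul_cancel (hdiv U hU').1, hUW.1, Int.ediv_mul_cancel (hdiv W hW').1]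
    have e2 : 2 * D * dt U₀ U = 2 * D * dt U₀ W := by
      rw [← Int.ediv_mul_cancel (hdiv U hU').2, hUW.2, Int.ediv_mul_cancel (hdiv W hW').2]
    have h2D : 2 * D ≠ 0 := mul_ne_zero two_ne_zero hD
    have e3 : dp U₀ U = dp U₀ W := mul_left_cancel₀ h2D e1
    have e4 : dt U₀ U = dt U₀ W := mul_left_cancel₀ h2D e2
    simp only [dp, dt, nm] at e3 e4 h1
    have e5 : g * U.1 = g * W.1 := by
      rw [← h1]
      linear_combination U₀.1 * e3 - U₀.2 * e4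
    have e6 : g * U.2 = g * W.2 := by
      rw [← h1]
      linear_combination U₀.2 * e3 + U₀.1 * e4
    exact Prod.ext (mul_left_cancel₀ hg0 e5) (mul_left_cancel₀ hg0 e6)

theorem mult_bound (D n : ℤ) (hD : D ≠ 0) (S : Finset (ℤ × ℤ))
    (hS : ∀ U ∈ S, ∃ V, dt U V = D ∧ dp U V = D * n) :
    S.card ≤ 2 ^ om (D ^ 2 * (n ^ 2 + 1)) * (4 * D.natAbs + 1) ^ 2 := by
  have hN : D ^ 2 * (n ^ 2 + 1) ≠ 0 := mul_ne_zero (pow_ne_zero 2 hD) (by positivity)
  have hN' : (D ^ 2 * (n ^ 2 + 1)).natAbs ≠ 0 := Int.natAbs_ne_zero.mpr hN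
  have hmul : ∀ U ∈ S, ∀ V, dt U V = D → dp U V = D * n →
      nm U * nm V = D ^ 2 * (n ^ 2 + 1) := by
    intro U _ V h1 h2
    rw [← dp_sq_add_dt_sq, h1, h2]; ring
  have hpos : ∀ U ∈ S, 0 < nm U := by
    intro U hU
    obtain ⟨V, h1, h2⟩ := hS U hU
    have h3 := hmul U hU V h1 h2
    have h4 : nm U ≠ 0 := by
      intro h; rw [h, zero_mul] at h3; exact hN h3.symm
    have h5 : 0 ≤ nm U := by unfold nm; positivity
    exact lt_of_le_of_ne h5 (Ne.symm h4)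
  have himg : (S.image fun U => (nm U).natAbs).card ≤ 2 ^ om (D ^ 2 * (n ^ 2 + 1)) := by
    refine le_trans (Finset.card_le_card ?_) (mult_card_divisors _ hN')
    intro m hm
    obtain ⟨U, hU, rfl⟩ := Finset.mem_image.mp hm
    obtain ⟨V, h1, h2⟩ := hS U hU
    rw [Nat.mem_divisors]
    refine ⟨?_, hN'⟩
    rw [← hmul U hU V h1 h2, Int.natAbs_mul]
    exact dvd_mul_right _ _
  have hfib : S.card ≤ (4 * D.natAbs + 1) ^ 2 * (S.image fun U => (nm U).natAbs).card := by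
    refine Finset.card_le_mul_card_image S _ ?_
    intro b hb
    obtain ⟨U₀, hU₀, rfl⟩ := Finset.mem_image.mp hb
    refine mult_fiber_bound D n (nm U₀) hD (hpos U₀ hU₀) _ ?_
    intro U hU
    rw [Finset.mem_filter] at hU
    obtain ⟨hU, hU'⟩ := hU
    have h0 : nm U = nm U₀ := by
      have h1 := hpos U hU
      have h2 := hpos U₀ hU₀
      omega
    refine ⟨h0, ?_, ?_⟩
    · obtain ⟨V, h1, h2⟩ := hS U hU
      refine ⟨V.1, ?_⟩
      rw [← h0]
      simp only [nm, dp, dt] at *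
      linear_combination -U.1 * h2 + U.2 * h1
    · obtain ⟨V, h1, h2⟩ := hS U hU
      refine ⟨V.2, ?_⟩
      rw [← h0]
      simp only [nm, dp, dt] at *
      linear_combination -U.2 * h2 - U.1 * h1
  calc S.card ≤ (4 * D.natAbs + 1) ^ 2 * (S.image fun U => (nm U).natAbs).card := hfib
    _ ≤ (4 * D.natAbs + 1) ^ 2 * 2 ^ om (D ^ 2 * (n ^ 2 + 1)) := Nat.mul_le_mul_left _ himg
    _ = _ := Nat.mul_comm _ _

end Pool.Agent.OmAP
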