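import Pool.Agent.Lib_MP_f1a94e_ap.Defs2

/-!
# MP_f1a94e_nt: roots of the norm polynomials
-/

set_option autoImplicit false

namespace Pool.Agent.OmAP

open Finset ArithmeticFunction Polynomial

theorem nm_shift_eq (z w u : ℤ × ℤ) (L : ℤ) (t : ℕ) :
    nm (lin u z (shift L t z w)) =
      (u.2 * L) ^ 2 * nm z * (t : ℤ) ^ 2 + 2 * (u.2 * L) * dp z (lin u z w) * t +
        nm (lin u z w) := by
  simp only [nm, lin, shift, dp]; ring

theorem roots_card (z w u : ℤ × ℤ) (L : ℤ) (p : ℕ) (hp : p.Prime) (hp2 : p ≠ 2)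
    (hdet : dt z w = 1) (hL : ¬ (p : ℤ) ∣ L) (hu : ¬ (p : ℤ) ∣ u.2) :
    ((range p).filter fun t => (p : ℤ) ∣ nm (lin u z (shift L t z w))).card ≤ 2 := by
  classical
  have := Fact.mk hp
  have hpI : Prime (p : ℤ) := Nat.prime_iff_prime_int.mp hp
  set a : ℤ := (u.2 * L) ^ 2 * nm z with ha
  set b : ℤ := 2 * (u.2 * L) * dp z (lin u z w) with hb
  set c : ℤ := nm (lin u z w) with hc
  set f : (ZMod p)[X] := C (a : ZMod p) * X ^ 2 + C (b : ZMod p) * X + C (c : ZMod p) with hf
  have huL : ¬ (p : ℤ) ∣ u.2 * L := fun h => (hpI.dvd_or_dvd h).elim hu hL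
  have hf0 : f ≠ 0 := by
    intro h0
    have h2 : (a : ZMod p) = 0 := by
      have := congrArg (fun g => g.coeff 2) h0
      simpa [hf, coeff_X, coeff_C, -map_intCast, -eq_intCast] using this
    have h1 : (b : ZMod p) = 0 := by
      have := congrArg (fun g => g.coeff 1) h0
      simpa [hf, coeff_X, coeff_C, -map_intCast, -eq_intCast] using this
    rw [ZMod.intCast_zmod_eq_zero_iff_dvd] at h1 h2
    have h3 : (p : ℤ) ∣ nm z := by
      rcases hpI.dvd_or_dvd h2 with h | h
      · exact absurd (hpI.dvd_of_dvd_pow h) huL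
      · exact h
    have h4 : (p : ℤ) ∣ dp z (lin u z w) := by
      rcases hpI.dvd_or_dvd h1 with h | h
      · rcases hpI.dvd_or_dvd h with h | h
        · exfalso
          have : p ∣ 2 := by exact_mod_cast h
          exact hp2 ((Nat.prime_dvd_prime_iff_eq hp Nat.prime_two).mp this)
        · exact absurd h huL
      · exact h
    have h5 : dp z (lin u z w) ^ 2 + u.2 ^ 2 = nm z * nm (lin u z w) := by
      have h6 := dp_sq_add_dt_sq z (lin u z w)
      have h7 : dt z (lin u z w) = u.2 := by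
        have : dt z (lin u z w) = u.2 * dt z w := by simp only [dt, lin]; ring
        rw [this, hdet, mul_one]
      rw [h7] at h6
      exact h6
    have h8 : (p : ℤ) ∣ u.2 ^ 2 := by
      have h9 : u.2 ^ 2 = nm z * nm (lin u z w) - dp z (lin u z w) ^ 2 := by linarith
      rw [h9]
      exact dvd_sub (h3.mul_right _) (dvd_pow h4 two_ne_zero)
    exact hu (hpI.dvd_of_dvd_pow h8)
  have hdeg : f.natDegree ≤ 2 := natDegree_quadratic_le
  have hinj : Set.InjOn (fun t : ℕ => (t : ZMod p))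
      ((range p).filter fun t => (p : ℤ) ∣ nm (lin u z (shift L t z w)) : Finset ℕ) := by
    intro s hs t ht hst
    simp only [coe_filter, mem_range, Set.mem_ofPred_eq] at hs ht
    have := (ZMod.natCast_eq_natCast_iff s t p).mp hst
    exact Nat.ModEq.eq_of_lt_of_lt this hs.1 ht.1
  have hsub : ((range p).filter fun t => (p : ℤ) ∣ nm (lin u z (shift L t z w))).image
      (fun t : ℕ => (t : ZMod p)) ⊆ f.roots.toFinset := by
    intro x hx
    obtain ⟨t, ht, rfl⟩ := mem_image.mp hx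
    have htd := (mem_filter.mp ht).2
    rw [Multiset.mem_toFinset, mem_roots hf0, IsRoot.def]
    rw [nm_shift_eq, ← ZMod.intCast_zmod_eq_zero_iff_dvd] at htd
    simp only [hf, eval_add, eval_mul, eval_C, eval_pow, eval_X]
    push_cast at htd
    rw [← htd, ha, hb, hc]
    push_cast
    ring
  calc ((range p).filter fun t => (p : ℤ) ∣ nm (lin u z (shift L t z w))).card
      = (((range p).filter fun t => (p : ℤ) ∣ nm (lin u z (shift L t z w))).image
          (fun t : ℕ => (t : ZMod p))).card := (card_image_of_injOn hinj).symm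
    _ ≤ f.roots.toFinset.card := card_le_card hsub
    _ ≤ Multiset.card f.roots := Multiset.toFinset_card_le _
    _ ≤ f.natDegree := card_roots' f
    _ ≤ 2 := hdeg

theorem nm_shift_mod (z w u : ℤ × ℤ) (L : ℤ) (p t : ℕ) :
    (p : ℤ) ∣ nm (lin u z (shift L t z w)) ↔ (p : ℤ) ∣ nm (lin u z (shift L (t % p) z w)) := by
  rw [nm_shift_eq, nm_shift_eq]
  have h : (((t % p : ℕ) : ℤ)) ≡ (t : ℤ) [ZMOD p] := by
    push_cast
    exact Int.mod_modEq _ _
  have h2 : (u.2 * L) ^ 2 * nm z * ((t % p : ℕ) : ℤ) ^ 2 +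
      2 * (u.2 * L) * dp z (lin u z w) * ((t % p : ℕ) : ℤ) + nm (lin u z w) ≡
      (u.2 * L) ^ 2 * nm z * (t : ℤ) ^ 2 + 2 * (u.2 * L) * dp z (lin u z w) * (t : ℤ) +
        nm (lin u z w) [ZMOD p] :=
    (((h.pow 2).mul_left _).add (h.mul_left _)).add_right _
  rw [Int.dvd_iff_emod_eq_zero, Int.dvd_iff_emod_eq_zero]
  unfold Int.ModEq at h2
  rw [h2]

end Pool.Agent.OmAP
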