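import Pool.Agent.Lib_MP_f1a94e_ap.Defs2

/-!
# MP_f1a94e_nt: number of prime factors of rough numbers (piece R2a)
-/

set_option autoImplicit false

namespace Pool.Agent.OmAP

open Finset ArithmeticFunction

theorem pow_cardFactors_le (y : ℕ) (r : ℕ) (hr : r ≠ 0)
    (h : ∀ p, p.Prime → p ∣ r → y < p) : (y + 1) ^ cardFactors r ≤ r := by
  rw [cardFactors_apply]
  have hprod := Nat.prod_primeFactorsList hr
  have : ∀ l : List ℕ, (∀ p ∈ l, y < p) → (y + 1) ^ l.length ≤ l.prod := by
    intro l
    induction l with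
    | nil => intro _; simp
    | cons a l ih =>
      intro hl
      rw [List.length_cons, List.prod_cons, pow_succ, mul_comm]
      exact Nat.mul_le_mul (hl a (by simp)) (ih fun p hp => hl p (List.mem_cons_of_mem _ hp))
  calc (y + 1) ^ (Nat.primeFactorsList r).length ≤ (Nat.primeFactorsList r).prod :=
        this _ fun p hp => h p (Nat.prime_of_mem_primeFactorsList hp)
          (Nat.dvd_of_mem_primeFactorsList hp)
    _ = r := hprod

theorem cardFactors_rough (s r y k : ℕ) (hs : s ≠ 0) (hr : r ≠ 0) (hy : 2 ≤ y)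
    (h : ∀ p, p.Prime → p ∣ r → y < p) (hb : r ≤ y ^ k) :
    cardFactors (s * r) ≤ cardFactors s + k := by
  rw [cardFactors_mul hs hr]
  have h1 := pow_cardFactors_le y r hr h
  have h2 : y ^ cardFactors r ≤ y ^ k :=
    ((Nat.pow_le_pow_left (Nat.le_succ y) _).trans h1).trans hb
  have h3 : cardFactors r ≤ k := (Nat.pow_le_pow_iff_right (by omega)).1 h2
  omega

end Pool.Agent.OmAP
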