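import Pool.Agent.Lib_MP_f1a94e_ap.SieveApp
import Pool.Agent.Lib_MP_f1a94e_ap.Roots
import Pool.Agent.Lib_MP_f1a94e_ap.Rough
import Pool.Agent.Lib_MP_f1a94e_ap.CountPrim
import Pool.Agent.Lib_MP_f1a94e_ap.Basis
import Pool.Agent.Lib_MP_f1a94e_ap.Mult
import Pool.Agent.Lib_MP_f1a94e_ap.CertA

/-!
# MP_f1a94e_nt: counting almost primes `m ^ 2 + 1` with `Ω` in a class
-/

set_option autoImplicit false

namespace Pool.Agent.OmAP

open Finset ArithmeticFunction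

theorem dt_shift (L : ℤ) (t : ℕ) (z w : ℤ × ℤ) : dt z (shift L t z w) = dt z w := by
  simp only [dt, shift]; ring

theorem nm_nonneg (u : ℤ × ℤ) : 0 ≤ nm u := by simp only [nm]; positivity

/-- the sieve step -/
theorem sieve_step (V : Finset (ℤ × ℤ)) (K C0 : ℕ) (hK : K = 2 * V.card) (hK2 : 2 ≤ K)
    (hC0 : ∀ z : ℕ, 2 ≤ z → ∀ Om : ℕ → Finset ℕ,
      (∀ p ∈ PP K z, (Om p).card ≤ K ∧ Om p ⊆ range p) → ∃ t < z ^ C0, ∀ p ∈ PP K z, t % p ∉ Om p)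
    (L : ℕ) (hL : ∀ p, p.Prime → p ≤ 2 * K → p ∣ L) (hL2 : ∀ u ∈ V, u.2 ∣ (L : ℤ))
    (z w : ℤ × ℤ) (hdet : dt z w = 1) (Y : ℕ) (hY : 2 ≤ Y) :
    ∃ t < Y ^ C0, ∀ u ∈ V, ∀ p : ℕ, p.Prime → p ≤ Y → ¬ p ∣ L →
      ¬ (p : ℤ) ∣ nm (lin u z (shift L t z w)) := by
  classical
  obtain ⟨t, ht, hts⟩ := hC0 Y hY (fun p => if p ∣ L then ∅ else
    V.biUnion fun u => (range p).filter fun t => (p : ℤ) ∣ nm (lin u z (shift L t z w))) (by
      intro p hp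
      obtain ⟨hp1, hp2⟩ := mem_filter.mp hp
      rw [mem_Ioc] at hp1
      by_cases hpL : p ∣ L
      · simp [hpL]
      · simp only [hpL, if_false]
        constructor
        · refine (card_biUnion_le_card_mul V _ 2 fun u hu => ?_).trans (by omega)
          refine roots_card z w u L p hp2 (by omega) hdet (fun h => hpL ?_) (fun h => hpL ?_)
          · exact_mod_cast h
          · have h2 := h.trans (hL2 u hu)
            exact_mod_cast h2
        · intro t ht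
          obtain ⟨u, -, hu⟩ := mem_biUnion.mp ht
          exact (mem_filter.mp hu).1)
  refine ⟨t, ht, fun u hu p hp hpY hpL hdvd => ?_⟩
  have hpK : 2 * K < p := by
    by_contra hle
    exact hpL (hL p hp (by omega))
  have hmem : p ∈ PP K Y := mem_filter.mpr ⟨mem_Ioc.mpr ⟨hpK, hpY⟩, hp⟩
  have h1 := hts p hmem
  simp only [hpL, if_false] at h1
  apply h1
  rw [mem_biUnion]
  refine ⟨u, hu, mem_filter.mpr ⟨mem_range.mpr (Nat.mod_lt _ hp.pos), ?_⟩⟩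
  exact (nm_shift_mod z w u L p t).mp hdvd

/-- the rough cofactor -/
theorem rough_part (u U : ℤ × ℤ) (hodd : Odd (nm u)) (L P F Y : ℕ) (hL : L = F * P ^ 2)
    (hu : nm u ∣ (P : ℤ))
    (hU : (L : ℤ) ∣ nm U - nm u) (hodd' : Odd (nm U))
    (hrough : ∀ p : ℕ, p.Prime → p ≤ Y → ¬ p ∣ L → ¬ (p : ℤ) ∣ nm U) :
    ∃ r : ℕ, (nm U).natAbs = (nm u).natAbs * r ∧ r ≠ 0 ∧ ∀ p, p.Prime → p ∣ r → Y < p := by
  have hu0 : nm u ≠ 0 := by
    intro h0; rw [h0] at hodd; exact absurd hodd (by decide)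
  have hU0 : nm U ≠ 0 := by
    intro h0; rw [h0] at hodd'; exact absurd hodd' (by decide)
  obtain ⟨e, he⟩ := hu
  obtain ⟨k, hk⟩ := hU
  -- nm U = nm u * (1 + F * P * e * k)
  have h1 : nm U = nm u * (1 + F * P * e * k) := by
    have h2 : (L : ℤ) = F * P * (nm u * e) := by rw [hL]; push_cast; rw [← he]; ring
    rw [h2] at hk
    linear_combination hk
  refine ⟨(1 + F * P * e * k : ℤ).natAbs, by rw [h1, Int.natAbs_mul], ?_, ?_⟩
  · intro h0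
    rw [Int.natAbs_eq_zero] at h0
    exact hU0 (by rw [h1, h0, mul_zero])
  · intro p hp hpr
    have hpr' : (p : ℤ) ∣ 1 + F * P * e * k := Int.natCast_dvd.mpr hpr
    by_contra hle
    push Not at hle
    by_cases hpL : p ∣ L
    · have h3 : p ∣ F ∨ p ∣ P := by
        rw [hL] at hpL
        rcases hp.dvd_mul.mp hpL with h | h
        · exact Or.inl h
        · exact Or.inr (hp.dvd_of_dvd_pow h)
      have h4 : (p : ℤ) ∣ F * P * e * k := by
        have h5 : (p : ℤ) ∣ F * P := by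
          rcases h3 with h | h
          · exact Dvd.dvd.mul_right (by exact_mod_cast h) _
          · exact Dvd.dvd.mul_left (by exact_mod_cast h) _
        exact (h5.mul_right _).mul_right _
      have h6 : (p : ℤ) ∣ 1 := (dvd_add_left h4).mp hpr'
      have h7 : p ∣ 1 := by exact_mod_cast h6
      exact hp.one_lt.ne' (Nat.dvd_one.mp h7)
    · exact hrough p hp hle hpL (by rw [h1]; exact hpr'.mul_left _)

theorem nm_add_le (a b : ℤ × ℤ) : nm (a.1 + b.1, a.2 + b.2) ≤ 2 * nm a + 2 * nm b := by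
  simp only [nm]
  nlinarith [sq_nonneg (a.1 - b.1), sq_nonneg (a.2 - b.2)]

theorem nm_bound (L N T x y t : ℕ) (hL : 1 ≤ L) (hT : 1 ≤ T) (hx1 : 1 ≤ x) (hx : x ≤ N)
    (hy : y ≤ N) (w : ℤ × ℤ)
    (hw : nm w ≤ (L : ℤ) ^ 2 * nm (1 + (L : ℤ) * x, (L : ℤ) * y) + 1) (ht : t ≤ T) (u : ℤ × ℤ) :
    nm (lin u (1 + (L : ℤ) * x, (L : ℤ) * y) (shift L t (1 + (L : ℤ) * x, (L : ℤ) * y) w)) ≤
      44 * (L : ℤ) ^ 4 * nm u * ((T : ℤ) * N) ^ 2 := by
  have hL' : (1 : ℤ) ≤ L := by exact_mod_cast hL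
  have hT' : (1 : ℤ) ≤ T := by exact_mod_cast hT
  have hx' : (1 : ℤ) ≤ x := by exact_mod_cast hx1
  have hxN : (x : ℤ) ≤ N := by exact_mod_cast hx
  have hyN : (y : ℤ) ≤ N := by exact_mod_cast hy
  have hy0 : (0 : ℤ) ≤ y := Int.natCast_nonneg y
  have ht0 : (0 : ℤ) ≤ t := Int.natCast_nonneg t
  have htT : (t : ℤ) ≤ T := by exact_mod_cast ht
  have hN1 : (1 : ℤ) ≤ N := hx'.trans hxN
  set z : ℤ × ℤ := (1 + (L : ℤ) * x, (L : ℤ) * y) with hzdef
  -- bound for nm z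
  have h1 : (L : ℤ) * x ≤ L * N := mul_le_mul_of_nonneg_left hxN (by positivity)
  have h1' : (1 : ℤ) ≤ L * N := one_le_mul_of_one_le_of_one_le hL' hN1
  have h2 : (L : ℤ) * y ≤ L * N := mul_le_mul_of_nonneg_left hyN (by positivity)
  have hz : nm z ≤ 5 * ((L : ℤ) * N) ^ 2 := by
    have h3 : (1 + (L : ℤ) * x) ^ 2 ≤ (2 * ((L : ℤ) * N)) ^ 2 := by
      apply pow_le_pow_left₀ (by positivity)
      linarith
    have h4 : ((L : ℤ) * y) ^ 2 ≤ ((L : ℤ) * N) ^ 2 := by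
      apply pow_le_pow_left₀ (by positivity)
      exact h2
    simp only [nm, hzdef]
    nlinarith
  have hz0 := nm_nonneg z
  have hLN : (1 : ℤ) ≤ (L : ℤ) ^ 4 * N ^ 2 := one_le_mul_of_one_le_of_one_le
    (one_le_pow₀ hL') (one_le_pow₀ hN1)
  have hw' : nm w ≤ 6 * ((L : ℤ) ^ 4 * N ^ 2) := by
    have h5 : (L : ℤ) ^ 2 * nm z ≤ (L : ℤ) ^ 2 * (5 * ((L : ℤ) * N) ^ 2) :=
      mul_le_mul_of_nonneg_left hz (by positivity)
    have h6 : (L : ℤ) ^ 2 * (5 * ((L : ℤ) * N) ^ 2) = 5 * ((L : ℤ) ^ 4 * N ^ 2) := by ring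
    linarith
  have hsh : nm (shift L t z w) ≤ 22 * ((L : ℤ) ^ 4 * (T * N) ^ 2) := by
    have h7 := nm_add_le w ((L : ℤ) * t * z.1, (L : ℤ) * t * z.2)
    have h8 : nm ((L : ℤ) * t * z.1, (L : ℤ) * t * z.2) = (L * t) ^ 2 * nm z := by
      simp only [nm]; ring
    have h9 : ((L : ℤ) * t) ^ 2 * nm z ≤ (L * T) ^ 2 * (5 * ((L : ℤ) * N) ^ 2) := by
      apply mul_le_mul _ hz hz0 (by positivity)
      apply pow_le_pow_left₀ (by positivity)
      exact mul_le_mul_of_nonneg_left htT (by positivity)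
    have h10 : ((L : ℤ) * T) ^ 2 * (5 * ((L : ℤ) * N) ^ 2) = 5 * ((L : ℤ) ^ 4 * (T * N) ^ 2) := by
      ring
    have h11 : (L : ℤ) ^ 4 * N ^ 2 ≤ (L : ℤ) ^ 4 * (T * N) ^ 2 := by
      apply mul_le_mul_of_nonneg_left _ (by positivity)
      apply pow_le_pow_left₀ (by positivity)
      nlinarith
    have h12 : nm (shift L t z w) = nm (w.1 + (L : ℤ) * t * z.1, w.2 + (L : ℤ) * t * z.2) := rfl
    rw [h12]
    simp only at h7
    rw [h8] at h7
    linarith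
  have hl : nm (lin u z (shift L t z w)) ≤
      2 * (u.1 ^ 2 * nm z) + 2 * (u.2 ^ 2 * nm (shift L t z w)) := by
    have h13 := nm_add_le (u.1 * z.1, u.1 * z.2)
      (u.2 * (shift L t z w).1, u.2 * (shift L t z w).2)
    have h14 : nm (u.1 * z.1, u.1 * z.2) = u.1 ^ 2 * nm z := by simp only [nm]; ring
    have h15 : nm (u.2 * (shift L t z w).1, u.2 * (shift L t z w).2) =
        u.2 ^ 2 * nm (shift L t z w) := by simp only [nm]; ring
    rw [h14, h15] at h13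
    exact h13
  have h16 : u.1 ^ 2 * nm z ≤ u.1 ^ 2 * (22 * ((L : ℤ) ^ 4 * (T * N) ^ 2)) := by
    apply mul_le_mul_of_nonneg_left _ (sq_nonneg _)
    refine hz.trans ?_
    have h17 : ((L : ℤ) * N) ^ 2 ≤ (L : ℤ) ^ 4 * (T * N) ^ 2 := by
      have h18 : (L : ℤ) ^ 4 * (T * N) ^ 2 = (L ^ 2 * (T * N)) ^ 2 := by ring
      rw [h18]
      apply pow_le_pow_left₀ (by positivity)
      have h19 : (L : ℤ) ≤ L ^ 2 := by nlinarith
      have h20 : (N : ℤ) ≤ T * N := by nlinarith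
      exact mul_le_mul h19 h20 (by positivity) (by positivity)
    have h21 : (0 : ℤ) ≤ (L : ℤ) ^ 4 * (T * N) ^ 2 := by positivity
    linarith
  have h22 : u.2 ^ 2 * nm (shift L t z w) ≤ u.2 ^ 2 * (22 * ((L : ℤ) ^ 4 * (T * N) ^ 2)) :=
    mul_le_mul_of_nonneg_left hsh (sq_nonneg _)
  have h23 : 44 * (L : ℤ) ^ 4 * nm u * ((T : ℤ) * N) ^ 2 =
      2 * (u.1 ^ 2 * (22 * ((L : ℤ) ^ 4 * (T * N) ^ 2))) +
      2 * (u.2 ^ 2 * (22 * ((L : ℤ) ^ 4 * (T * N) ^ 2))) := by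
    simp only [nm]; ring
  rw [h23]
  linarith

theorem cardFactors_le_of_dvd {m n : ℕ} (h : m ∣ n) (hn : n ≠ 0) :
    cardFactors m ≤ cardFactors n := by
  obtain ⟨e, rfl⟩ := h
  have hm : m ≠ 0 := left_ne_zero_of_mul hn
  have he : e ≠ 0 := right_ne_zero_of_mul hn
  rw [cardFactors_mul hm he]
  exact Nat.le_add_right _ _

/-- the construction for one base vector `z` -/
theorem one_pair {q : ℕ} {A : Set (ZMod q)} {Q : ℕ} {V : Finset (ℤ × ℤ)} (hV : IsCertA q A Q V)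
    (K C0 F P L : ℕ)
    (hK : K = 2 * V.card) (hK2 : 2 ≤ K)
    (hC0 : ∀ z : ℕ, 2 ≤ z → ∀ Om : ℕ → Finset ℕ,
      (∀ p ∈ PP K z, (Om p).card ≤ K ∧ Om p ⊆ range p) → ∃ t < z ^ C0, ∀ p ∈ PP K z, t % p ∉ Om p)
    (hL : L = F * P ^ 2) (hP : 0 < P) (hF : 0 < F)
    (hLp : ∀ p, p.Prime → p ≤ 2 * K → p ∣ F)
    (hP1 : ∀ u ∈ V, nm u ∣ (P : ℤ)) (hP2 : ∀ u ∈ V, u.2 ∣ (P : ℤ))
    (hP3 : ∀ u ∈ V, ∀ v ∈ V, dt u v ≠ 0 → dt u v ∣ (P : ℤ))
    (M Y x y : ℕ) (hY : 44 * L ^ 4 * P + 2 ≤ Y) (hx1 : 1 ≤ x) (hx : x ≤ Y ^ M) (hy : y ≤ Y ^ M)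
    (hcop : Nat.Coprime (1 + L * x) (L * y)) :
    ∃ u ∈ V, ∃ v ∈ V, ∃ n : ℤ, ∃ U W : ℤ × ℤ, dt u v ≠ 0 ∧ dt U W = dt u v ∧
      dp U W = dt u v * n ∧
      v.2 * U.1 - u.2 * W.1 = dt u v * (1 + L * x) ∧ v.2 * U.2 - u.2 * W.2 = dt u v * (L * y) ∧
      Even n ∧ (om (n ^ 2 + 1) : ZMod q) ∈ A ∧
      om (n ^ 2 + 1) ≤ 2 * (cardFactors P + (2 * C0 + 2 * M + 1)) ∧
      om ((dt u v) ^ 2 * (n ^ 2 + 1)) ≤ 2 * (cardFactors P + (2 * C0 + 2 * M + 1)) ∧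
      n.natAbs ≤ 44 * L ^ 4 * P * Y ^ (2 * M + 2 * C0) ∧
      ∃ s r : ℕ, n.natAbs ^ 2 + 1 = s * r ∧ s ≤ P ^ 2 ∧ s.Coprime Q ∧
        ∀ p, p.Prime → p ∣ r → Y < p := by
  have hL0 : 0 < L := by rw [hL]; positivity
  have hY2 : 2 ≤ Y := by omega
  have hPL : (P : ℤ) ∣ L := by
    rw [hL]; push_cast; exact ⟨F * P, by ring⟩
  have hFL : F ∣ L := by rw [hL]; exact dvd_mul_right _ _
  have h2L : (2 : ℤ) ∣ L := by
    have h := (hLp 2 Nat.prime_two (by omega)).trans hFL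
    exact_mod_cast h
  have hzc : IsCoprime (1 + (L : ℤ) * x) ((L : ℤ) * y) := by
    have h := Nat.isCoprime_iff_coprime.mpr hcop
    push_cast at h
    exact h
  obtain ⟨w, hdet, hw1, hw2, hw⟩ := exists_basis L hL0 (1 + (L : ℤ) * x, (L : ℤ) * y) hzc
    (by simp) (by simp)
  obtain ⟨t, ht, hts⟩ := sieve_step V K C0 hK hK2 hC0 L
    (fun p hp hpK => (hLp p hp hpK).trans hFL) (fun u hu => (hP2 u hu).trans hPL)
    (1 + (L : ℤ) * x, (L : ℤ) * y) w hdet Y hY2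
  set z : ℤ × ℤ := (1 + (L : ℤ) * x, (L : ℤ) * y) with hzdef
  set w' : ℤ × ℤ := shift L t z w with hw'def
  have hdet' : dt z w' = 1 := by rw [hw'def, dt_shift]; exact hdet
  have hz1 : (L : ℤ) ∣ z.1 - 1 := by simp [hzdef]
  have hz2 : (L : ℤ) ∣ z.2 := by simp [hzdef]
  have hw1' : (L : ℤ) ∣ w'.1 := by
    simp only [hw'def, shift]
    exact dvd_add hw1 ((dvd_mul_right _ _).mul_right _)
  have hw2' : (L : ℤ) ∣ w'.2 - 1 := by
    have h : w'.2 - 1 = (w.2 - 1) + L * (t * z.2) := by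
      simp only [hw'def, shift]; ring
    rw [h]
    exact dvd_add hw2 (dvd_mul_right _ _)
  obtain ⟨u, hu, v, hv, n, hD, hDdvd, hn, hev, hcls, hom1, hom2, hprod, hsize⟩ :=
    transferA hV (L : ℤ) h2L (fun u hu v hv h => (hP3 u hu v hv h).trans hPL) z w' hdet' hz1 hz2
      hw1' hw2'
  have hodd := hV.1
  -- bounds
  have hB : ∀ s ∈ V, nm (lin s z w') ≤ ((44 * L ^ 4 * P * (Y ^ C0 * Y ^ M) ^ 2 : ℕ) : ℤ) := by
    intro s hs
    have h1 := nm_bound L (Y ^ M) (Y ^ C0) x y t hL0 (Nat.one_le_pow _ _ (by omega)) hx1 hx hy w hw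
      ht.le s
    refine h1.trans ?_
    push_cast
    apply mul_le_mul_of_nonneg_right _ (by positivity)
    apply mul_le_mul_of_nonneg_left _ (by positivity)
    exact Int.le_of_dvd (by exact_mod_cast hP) (hP1 s hs)
  have hexp : (Y ^ C0 * Y ^ M) ^ 2 = Y ^ (2 * M + 2 * C0) := by
    rw [← pow_add, ← pow_mul]; congr 1; ring
  have hrough : ∀ s ∈ V, ∃ r : ℕ, (nm (lin s z w')).natAbs = (nm s).natAbs * r ∧ r ≠ 0 ∧
      ∀ p, p.Prime → p ∣ r → Y < p := by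
    intro s hs
    have hsub := nm_lin_sub (L : ℤ) s z w' hz1 hz2 hw1' hw2'
    have hodd' : Odd (nm (lin s z w')) := by
      obtain ⟨c, hc⟩ := h2L.trans hsub
      obtain ⟨d, hd⟩ := (hodd s hs).1
      exact ⟨c + d, by linear_combination hc + hd⟩
    exact rough_part s (lin s z w') (hodd s hs).1 L P F Y hL (hP1 s hs) hsub
      hodd' (fun p hp hpY hpL => hts s hs p hp hpY hpL)
  have hnm0 : ∀ s ∈ V, (nm s).natAbs ≠ 0 := by
    intro s hs h0
    rw [Int.natAbs_eq_zero] at h0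
    have h1 := (hodd s hs).1
    rw [h0] at h1
    exact absurd h1 (by decide)
  have hOm : ∀ s ∈ V, om (nm (lin s z w')) ≤ cardFactors P + (2 * C0 + 2 * M + 1) := by
    intro s hs
    obtain ⟨r, hr, hr0, hrp⟩ := hrough s hs
    have hs0 := hnm0 s hs
    have hrle : r ≤ Y ^ (2 * C0 + 2 * M + 1) := by
      have h1 : r ≤ (nm (lin s z w')).natAbs := by
        rw [hr]; exact Nat.le_mul_of_pos_left _ (Nat.pos_of_ne_zero hs0)
      have h2 : (nm (lin s z w')).natAbs ≤ 44 * L ^ 4 * P * (Y ^ C0 * Y ^ M) ^ 2 := by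
        have h3 := hB s hs
        have h4 := nm_nonneg (lin s z w')
        omega
      have h5 : 44 * L ^ 4 * P * (Y ^ C0 * Y ^ M) ^ 2 ≤ Y * (Y ^ C0 * Y ^ M) ^ 2 :=
        Nat.mul_le_mul_right _ (by omega)
      have h6 : Y * (Y ^ C0 * Y ^ M) ^ 2 = Y ^ (2 * C0 + 2 * M + 1) := by
        rw [hexp, pow_add, pow_add, pow_add]; ring
      omega
    have h7 := cardFactors_rough (nm s).natAbs r Y (2 * C0 + 2 * M + 1) hs0 hr0 hY2 hrp hrle
    have h8 : cardFactors (nm s).natAbs ≤ cardFactors P :=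
      cardFactors_le_of_dvd (by exact Int.natAbs_dvd_natAbs.mpr (hP1 s hs)) hP.ne'
    have h9 : om (nm (lin s z w')) = cardFactors ((nm s).natAbs * r) := by
      rw [om, hr]
    rw [h9]
    omega
  refine ⟨u, hu, v, hv, n, lin u z w', lin v z w', hD, by rw [dt_lin, hdet', mul_one], hn, ?_, ?_,
    hev, hcls, ?_, ?_, ?_, ?_⟩
  · simp only [lin, dt, hzdef]; ring
  · simp only [lin, dt, hzdef]; ring
  · have h1 := hOm u hu
    have h2 := hOm v hv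
    omega
  · have h1 := hOm u hu
    have h2 := hOm v hv
    omega
  · have h1 := hB u hu
    have h2 := hB v hv
    rw [hexp] at h1 h2
    set B : ℕ := 44 * L ^ 4 * P * Y ^ (2 * M + 2 * C0) with hBdef
    have h3 : n ^ 2 ≤ (B : ℤ) ^ 2 := by
      have h4 : nm (lin u z w') * nm (lin v z w') ≤ (B : ℤ) * B :=
        mul_le_mul h1 h2 (nm_nonneg _) (by positivity)
      nlinarith
    have h5 : |n| ≤ (B : ℤ) := abs_le_of_sq_le_sq h3 (by positivity)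
    have h6 : ((n.natAbs : ℕ) : ℤ) ≤ (B : ℤ) := by rw [Int.natCast_natAbs]; exact h5
    exact_mod_cast h6
  · obtain ⟨ru, hru, hru0, hrup⟩ := hrough u hu
    obtain ⟨rv, hrv, hrv0, hrvp⟩ := hrough v hv
    obtain ⟨m0, hm0⟩ := hDdvd
    have e1 : nm u * nm v = (dt u v) ^ 2 * (m0 ^ 2 + 1) := by
      have h4 := dp_sq_add_dt_sq u v
      rw [hm0] at h4
      linear_combination -h4
    have key : ∀ k : ℤ, (k ^ 2 + 1).natAbs = k.natAbs ^ 2 + 1 := by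
      intro k
      have h1 : (k ^ 2 + 1) = ((k.natAbs ^ 2 + 1 : ℕ) : ℤ) := by
        push_cast; rw [sq_abs]
      rw [h1, Int.natAbs_natCast]
    have e2 : (nm u).natAbs * (nm v).natAbs = (dt u v).natAbs ^ 2 * (m0.natAbs ^ 2 + 1) := by
      rw [← Int.natAbs_mul, e1, Int.natAbs_mul, Int.natAbs_pow, key]
    have e3 : (nm u).natAbs * ru * ((nm v).natAbs * rv) =
        (dt u v).natAbs ^ 2 * (n.natAbs ^ 2 + 1) := by
      rw [← hru, ← hrv, ← Int.natAbs_mul, hprod, Int.natAbs_mul, Int.natAbs_pow, key]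
    have hD0 : (dt u v).natAbs ^ 2 ≠ 0 := pow_ne_zero 2 (Int.natAbs_ne_zero.mpr hD)
    refine ⟨m0.natAbs ^ 2 + 1, ru * rv, ?_, ?_, ?_, ?_⟩
    · apply mul_left_cancel₀ hD0
      rw [← e3]
      calc (nm u).natAbs * ru * ((nm v).natAbs * rv)
          = (nm u).natAbs * (nm v).natAbs * (ru * rv) := by ring
        _ = _ := by rw [e2]; ring
    · have h1 : m0.natAbs ^ 2 + 1 ≤ (nm u).natAbs * (nm v).natAbs := by
        rw [e2]; exact Nat.le_mul_of_pos_left _ (Nat.pos_of_ne_zero hD0)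
      have h2 : ∀ s ∈ V, (nm s).natAbs ≤ P := by
        intro s hs
        have h3 := Int.natAbs_dvd_natAbs.mpr (hP1 s hs)
        rw [Int.natAbs_natCast] at h3
        exact Nat.le_of_dvd hP h3
      refine h1.trans ?_
      rw [sq]
      exact Nat.mul_le_mul (h2 u hu) (h2 v hv)
    · have h1 : (m0.natAbs ^ 2 + 1) ∣ (nm u).natAbs * (nm v).natAbs := by
        rw [e2]; exact dvd_mul_left _ _
      exact Nat.Coprime.coprime_dvd_left h1
        (Nat.Coprime.mul_left (hV.1 u hu).2.2 (hV.1 v hv).2.2)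
    · intro p hp hpr
      rcases hp.dvd_mul.mp hpr with h | h
      · exact hrup p hp h
      · exact hrvp p hp h

/-- number of base vectors giving the same `u, v, n` -/
theorem fibre_one (u v : ℤ × ℤ) (n : ℤ) (hD : dt u v ≠ 0) (L R P : ℕ) (hL : 0 < L)
    (hP : (dt u v).natAbs ≤ P) (hR : om ((dt u v) ^ 2 * (n ^ 2 + 1)) ≤ R) (S : Finset (ℕ × ℕ))
    (h : ∀ s ∈ S, ∃ U W : ℤ × ℤ, dt U W = dt u v ∧ dp U W = dt u v * n ∧
      v.2 * U.1 - u.2 * W.1 = dt u v * (1 + L * s.1) ∧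
      v.2 * U.2 - u.2 * W.2 = dt u v * (L * s.2)) :
    S.card ≤ 2 ^ R * (4 * P + 1) ^ 2 := by
  classical
  choose! U W hd hp h1 h2 using h
  have hinj : Set.InjOn U S := by
    intro s hs s' hs' hU
    have hs1 := hd s hs
    have hs2 := hp s hs
    have hs1' := hd s' hs'
    have hs2' := hp s' hs'
    rw [← hU] at hs1' hs2'
    have hn0 : nm (U s) ≠ 0 := by
      intro h0
      have h3 := dp_sq_add_dt_sq (U s) (W s)
      rw [h0, zero_mul, hs1] at h3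
      have h4 : 0 < (dt u v) ^ 2 := by positivity
      nlinarith [sq_nonneg (dp (U s) (W s))]
    have e1 : nm (U s) * (W s).1 = nm (U s) * (W s').1 := by
      simp only [nm, dt, dp] at *
      linear_combination (U s).1 * hs2 - (U s).2 * hs1 - (U s).1 * hs2' + (U s).2 * hs1'
    have e2 : nm (U s) * (W s).2 = nm (U s) * (W s').2 := by
      simp only [nm, dt, dp] at *
      linear_combination (U s).2 * hs2 + (U s).1 * hs1 - (U s).2 * hs2' - (U s).1 * hs1'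
    have f1 := mul_left_cancel₀ hn0 e1
    have f2 := mul_left_cancel₀ hn0 e2
    have g1 := h1 s hs
    have g1' := h1 s' hs'
    have g2 := h2 s hs
    have g2' := h2 s' hs'
    rw [← hU, ← f1, g1] at g1'
    rw [← hU, ← f2, g2] at g2'
    have k1 := mul_left_cancel₀ hD g1'
    have k2 := mul_left_cancel₀ hD g2'
    have hL0 : (L : ℤ) ≠ 0 := by exact_mod_cast hL.ne'
    have k3 : (s.1 : ℤ) = s'.1 := mul_left_cancel₀ hL0 (by linarith)
    have k4 : (s.2 : ℤ) = s'.2 := mul_left_cancel₀ hL0 (by linarith)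
    exact Prod.ext (by exact_mod_cast k3) (by exact_mod_cast k4)
  have hcard : S.card = (S.image U).card := (card_image_of_injOn hinj).symm
  rw [hcard]
  refine (mult_bound (dt u v) n hD (S.image U) ?_).trans ?_
  · intro x hx
    obtain ⟨s, hs, rfl⟩ := mem_image.mp hx
    exact ⟨W s, hd s hs, hp s hs⟩
  · exact Nat.mul_le_mul (Nat.pow_le_pow_right (by norm_num) hR)
      (Nat.pow_le_pow_left (by omega) 2)

/-- the property of `m` in the theorem -/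
def Good (q : ℕ) (A : Set (ZMod q)) (Q R m : ℕ) : Prop :=
  Even m ∧ cardFactors (m ^ 2 + 1) ≤ R ∧ ((cardFactors (m ^ 2 + 1) : ℕ) : ZMod q) ∈ A ∧
    ∃ s r : ℕ, m ^ 2 + 1 = s * r ∧ s ≤ R ∧ s.Coprime Q ∧ ∀ p, p.Prime → p ∣ r → m < p ^ R

theorem count_y {q : ℕ} {A : Set (ZMod q)} {Q : ℕ} (h : CertA q A Q) : ∃ E : ℕ, ∀ M : ℕ, 1 ≤ M →
    ∃ C R : ℕ, ∃ c : ℝ, 0 < c ∧ ∀ᶠ y : ℕ in Filter.atTop,
      c * (y : ℝ) ^ (2 * M) ≤ Set.ncard {m : ℕ | m ≤ C * y ^ (2 * M + E) ∧ Good q A Q R m} := by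
  classical
  obtain ⟨V, hV⟩ := h
  have hVne : V.Nonempty := by
    obtain ⟨u, hu, -⟩ := hV.2 (fun _ => 0)
    exact ⟨u, hu⟩
  have hVc : 1 ≤ V.card := hVne.card_pos
  obtain ⟨K, hK⟩ : ∃ K, K = 2 * V.card := ⟨_, rfl⟩
  have hK2 : 2 ≤ K := by omega
  obtain ⟨C0, -, hC0⟩ := sieve_exists K
  -- the modulus
  obtain ⟨P, hP⟩ : ∃ P : ℕ, P = (∏ u ∈ V, ((nm u).natAbs * (u.2).natAbs)) *
      ∏ u ∈ V, ∏ v ∈ V, (if dt u v = 0 then 1 else (dt u v).natAbs) := ⟨_, rfl⟩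
  have hnm0 : ∀ u ∈ V, (nm u).natAbs ≠ 0 := by
    intro s hs h0
    rw [Int.natAbs_eq_zero] at h0
    have h1 := (hV.1 s hs).1
    rw [h0] at h1
    exact absurd h1 (by decide)
  have hP0 : 0 < P := by
    rw [hP]
    apply Nat.mul_pos
    · apply prod_pos
      intro u hu
      exact Nat.mul_pos (Nat.pos_of_ne_zero (hnm0 u hu))
        (Int.natAbs_pos.mpr (hV.1 u hu).2.1)
    · apply prod_pos
      intro u _
      apply prod_pos
      intro v _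
      split_ifs with h0
      · exact one_pos
      · exact Int.natAbs_pos.mpr h0
  have hP1 : ∀ u ∈ V, nm u ∣ (P : ℤ) := by
    intro u hu
    rw [← Int.natAbs_dvd, Int.natCast_dvd_natCast, hP]
    exact ((dvd_mul_right _ _).trans (dvd_prod_of_mem
      (fun u : ℤ × ℤ => (nm u).natAbs * (u.2).natAbs) hu)).mul_right _
  have hP2 : ∀ u ∈ V, u.2 ∣ (P : ℤ) := by
    intro u hu
    rw [← Int.natAbs_dvd, Int.natCast_dvd_natCast, hP]
    exact ((dvd_mul_left _ _).trans (dvd_prod_of_mem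
      (fun u : ℤ × ℤ => (nm u).natAbs * (u.2).natAbs) hu)).mul_right _
  have hP3 : ∀ u ∈ V, ∀ v ∈ V, dt u v ≠ 0 → dt u v ∣ (P : ℤ) := by
    intro u hu v hv h0
    rw [← Int.natAbs_dvd, Int.natCast_dvd_natCast, hP]
    refine Dvd.dvd.mul_left ?_ _
    refine Dvd.dvd.trans ?_ (dvd_prod_of_mem
      (fun u : ℤ × ℤ => ∏ v ∈ V, (if dt u v = 0 then 1 else (dt u v).natAbs)) hu)
    have h1 := dvd_prod_of_mem (fun v : ℤ × ℤ => (if dt u v = 0 then 1 else (dt u v).natAbs)) hv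
    simp only [h0, if_false] at h1
    exact h1
  obtain ⟨F, hF⟩ : ∃ F : ℕ, F = (2 * K).factorial := ⟨_, rfl⟩
  have hF0 : 0 < F := by rw [hF]; exact Nat.factorial_pos _
  have hLp : ∀ p, p.Prime → p ≤ 2 * K → p ∣ F := by
    intro p hp hle
    rw [hF]
    exact Nat.dvd_factorial hp.pos hle
  obtain ⟨L, hL⟩ : ∃ L : ℕ, L = F * P ^ 2 := ⟨_, rfl⟩
  have hL0 : 0 < L := by rw [hL]; positivity
  have h2L : 2 ∣ L := by rw [hL]; exact (hLp 2 Nat.prime_two (by omega)).mul_right _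
  have h3L : 3 ∣ L := by rw [hL]; exact (hLp 3 Nat.prime_three (by omega)).mul_right _
  refine ⟨2 * C0, fun M _ => ⟨44 * L ^ 4 * P,
    2 * (cardFactors P + (2 * C0 + 2 * M + 1)) + P ^ 2, ?_⟩⟩
  set R : ℕ := 2 * (cardFactors P + (2 * C0 + 2 * M + 1)) with hRdef
  set F1 : ℕ := 2 ^ R * (4 * P + 1) ^ 2 with hF1
  set F2 : ℕ := V.card * (V.card * 2) with hF2
  have hF1pos : 0 < F1 := by positivity
  have hF2pos : 0 < F2 := by positivity
  refine ⟨1 / (2 * F1 * F2), by positivity, ?_⟩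
  filter_upwards [Filter.eventually_ge_atTop (44 * L ^ 4 * P + 2)] with Y hY
  set S : Finset (ℕ × ℕ) := (Icc 1 (Y ^ M) ×ˢ Icc 1 (Y ^ M)).filter
    fun t : ℕ × ℕ => Nat.Coprime (1 + L * t.1) (L * t.2) with hS
  have hScard : ((Y : ℝ) ^ M) ^ 2 / 2 ≤ (S.card : ℝ) := by
    have h1 := count_prim L (Y ^ M) h2L h3L
    push_cast at h1
    exact h1
  have hex : ∀ s ∈ S, ∃ u ∈ V, ∃ v ∈ V, ∃ n : ℤ, ∃ U W : ℤ × ℤ, dt u v ≠ 0 ∧ dt U W = dt u v ∧
      dp U W = dt u v * n ∧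
      v.2 * U.1 - u.2 * W.1 = dt u v * (1 + L * s.1) ∧ v.2 * U.2 - u.2 * W.2 = dt u v * (L * s.2) ∧
      Even n ∧ (om (n ^ 2 + 1) : ZMod q) ∈ A ∧ om (n ^ 2 + 1) ≤ R ∧
      om ((dt u v) ^ 2 * (n ^ 2 + 1)) ≤ R ∧
      n.natAbs ≤ 44 * L ^ 4 * P * Y ^ (2 * M + 2 * C0) ∧
      ∃ s r : ℕ, n.natAbs ^ 2 + 1 = s * r ∧ s ≤ P ^ 2 ∧ s.Coprime Q ∧
        ∀ p, p.Prime → p ∣ r → Y < p := by
    intro s hs
    obtain ⟨hs1, hs2⟩ := mem_filter.mp hs
    obtain ⟨hsx, hsy⟩ := mem_product.mp hs1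
    rw [mem_Icc] at hsx hsy
    exact one_pair hV K C0 F P L hK hK2 hC0 hL hP0 hF0 hLp hP1 hP2 hP3 M Y s.1 s.2 hY hsx.1 hsx.2
      hsy.2 hs2
  choose! u hu v hv n U W hD hdt hdp hz1 hz2 hev hcls hom1 hom2 hsz hfac using hex
  set g : ℕ × ℕ → (ℤ × ℤ) × (ℤ × ℤ) × ℤ := fun s => (u s, v s, n s) with hg
  have step1 : S.card ≤ F1 * (S.image g).card := by
    apply card_le_mul_card_image
    intro b hb
    obtain ⟨s0, hs0, rfl⟩ := mem_image.mp hb
    refine fibre_one (u s0) (v s0) (n s0) (hD s0 hs0) L R P hL0 ?_ (hom2 s0 hs0) _ ?_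
    · have h1 := Int.natAbs_dvd_natAbs.mpr (hP3 _ (hu s0 hs0) _ (hv s0 hs0) (hD s0 hs0))
      rw [Int.natAbs_natCast] at h1
      exact Nat.le_of_dvd hP0 h1
    · intro s hs
      obtain ⟨hsS, hsg⟩ := mem_filter.mp hs
      simp only [hg, Prod.mk.injEq] at hsg
      obtain ⟨e1, e2, e3⟩ := hsg
      refine ⟨U s, W s, ?_, ?_, ?_, ?_⟩
      · rw [← e1, ← e2]; exact hdt s hsS
      · rw [← e1, ← e2, ← e3]; exact hdp s hsS
      · rw [← e1, ← e2]; exact hz1 s hsS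
      · rw [← e1, ← e2]; exact hz2 s hsS
  have step2 : (S.image g).card ≤ F2 *
      ((S.image g).image fun b : (ℤ × ℤ) × (ℤ × ℤ) × ℤ => b.2.2.natAbs).card := by
    apply card_le_mul_card_image
    intro m hm
    have hsub : ((S.image g).filter fun b : (ℤ × ℤ) × (ℤ × ℤ) × ℤ => b.2.2.natAbs = m) ⊆
        V ×ˢ (V ×ˢ ({(m : ℤ), -(m : ℤ)} : Finset ℤ)) := by
      intro b hb
      obtain ⟨hb1, hb2⟩ := mem_filter.mp hb
      obtain ⟨s, hs, rfl⟩ := mem_image.mp hb1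
      simp only [hg] at hb2 ⊢
      rw [mem_product, mem_product]
      refine ⟨hu s hs, hv s hs, ?_⟩
      rw [mem_insert, mem_singleton]
      exact Int.natAbs_eq_iff.mp hb2
    refine (card_le_card hsub).trans ?_
    rw [card_product, card_product]
    exact Nat.mul_le_mul_left _ (Nat.mul_le_mul_left _ card_le_two)
  have hfin : {m : ℕ | m ≤ 44 * L ^ 4 * P * Y ^ (2 * M + 2 * C0) ∧
      Good q A Q (R + P ^ 2) m}.Finite :=
    (Set.finite_Iic (44 * L ^ 4 * P * Y ^ (2 * M + 2 * C0))).subset fun m hm => hm.1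
  have step3 : ((S.image g).image fun b : (ℤ × ℤ) × (ℤ × ℤ) × ℤ => b.2.2.natAbs).card ≤
      Set.ncard {m : ℕ | m ≤ 44 * L ^ 4 * P * Y ^ (2 * M + 2 * C0) ∧
        Good q A Q (R + P ^ 2) m} := by
    rw [← Set.ncard_coe_finset]
    apply Set.ncard_le_ncard _ hfin
    intro m hm
    rw [mem_coe, mem_image] at hm
    obtain ⟨b, hb, rfl⟩ := hm
    obtain ⟨s, hs, rfl⟩ := mem_image.mp hb
    have hkey : om ((n s) ^ 2 + 1) = cardFactors ((n s).natAbs ^ 2 + 1) := by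
      rw [om]
      congr 1
      have h1 : ((n s) ^ 2 + 1) = (((n s).natAbs ^ 2 + 1 : ℕ) : ℤ) := by
        push_cast; rw [sq_abs]
      rw [h1, Int.natAbs_natCast]
    obtain ⟨s', r', hsr, hs', hQ', hr'⟩ := hfac s hs
    refine ⟨hsz s hs, Int.natAbs_even.mpr (hev s hs), ?_, ?_, s', r', hsr, hs'.trans (by omega),
      hQ', ?_⟩
    · change cardFactors ((n s).natAbs ^ 2 + 1) ≤ R + P ^ 2
      rw [← hkey]; exact (hom1 s hs).trans (Nat.le_add_right _ _)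
    · change ((cardFactors ((n s).natAbs ^ 2 + 1) : ℕ) : ZMod q) ∈ A
      rw [← hkey]; exact hcls s hs
    · intro p hp hpr
      have h1 := hr' p hp hpr
      have h2 := hsz s hs
      change (n s).natAbs < p ^ (R + P ^ 2)
      calc (n s).natAbs ≤ 44 * L ^ 4 * P * Y ^ (2 * M + 2 * C0) := h2
        _ ≤ Y * Y ^ (2 * M + 2 * C0) := Nat.mul_le_mul_right _ (by omega)
        _ = Y ^ (2 * M + 2 * C0 + 1) := by rw [pow_succ]; ring
        _ < p ^ (2 * M + 2 * C0 + 1) := Nat.pow_lt_pow_left h1 (by omega)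
        _ ≤ p ^ (R + P ^ 2) := Nat.pow_le_pow_right hp.pos (by omega)
  have step4 : S.card ≤ F1 * (F2 * Set.ncard {m : ℕ | m ≤ 44 * L ^ 4 * P * Y ^ (2 * M + 2 * C0) ∧
      Good q A Q (R + P ^ 2) m}) :=
    step1.trans (Nat.mul_le_mul_left _ (step2.trans (Nat.mul_le_mul_left _ step3)))
  have step5 : (S.card : ℝ) ≤ F1 * (F2 * (Set.ncard {m : ℕ | m ≤ 44 * L ^ 4 * P *
      Y ^ (2 * M + 2 * C0) ∧ Good q A Q (R + P ^ 2) m} : ℝ)) := by exact_mod_cast step4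
  have hF1r : (0 : ℝ) < F1 := by exact_mod_cast hF1pos
  have hF2r : (0 : ℝ) < F2 := by exact_mod_cast hF2pos
  rw [div_mul_eq_mul_div, one_mul, div_le_iff₀ (by positivity)]
  have h6 : ((Y : ℝ) ^ M) ^ 2 = (Y : ℝ) ^ (2 * M) := by rw [← pow_mul, mul_comm]
  rw [h6] at hScard
  nlinarith

end Pool.Agent.OmAP
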