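import Mathlib

/-!
# MP_f1a94e_nt: `Ω(m ^ 2 + 1)` modulo `q`

Integer vectors `(a, b)` are Gaussian integers `a + b i`.
-/

set_option autoImplicit false

namespace Pool.Agent.OmAP

/-- determinant of two integer vectors -/
def dt (u v : ℤ × ℤ) : ℤ := u.1 * v.2 - u.2 * v.1

/-- dot product -/
def dp (u v : ℤ × ℤ) : ℤ := u.1 * v.1 + u.2 * v.2

/-- norm -/
def nm (u : ℤ × ℤ) : ℤ := u.1 ^ 2 + u.2 ^ 2

/-- the vector `u₁ z + u₂ w` -/
def lin (u z w : ℤ × ℤ) : ℤ × ℤ := (u.1 * z.1 + u.2 * w.1, u.1 * z.2 + u.2 * w.2)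

/-- number of prime factors with multiplicity of an integer -/
def om (n : ℤ) : ℕ := ArithmeticFunction.cardFactors n.natAbs

/-- A finite certificate: whatever values `X u` modulo `q` are given to the vectors of `V`, some
pair `u, v` of vectors of `V` with `dt u v ∣ dp u v` has `X u + X v = a + 2 Ω(dt u v)`. -/
def IsCert (q : ℕ) (a : ZMod q) (V : Finset (ℤ × ℤ)) : Prop :=
  (∀ u ∈ V, Odd (nm u) ∧ u.2 ≠ 0) ∧
  ∀ X : ℤ × ℤ → ZMod q, ∃ u ∈ V, ∃ v ∈ V, dt u v ≠ 0 ∧ dt u v ∣ dp u v ∧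
    X u + X v = a + 2 * (om (dt u v) : ZMod q)

/-- there is a certificate for `q` and `a` -/
def Cert (q : ℕ) (a : ZMod q) : Prop := ∃ V : Finset (ℤ × ℤ), IsCert q a V

/-- certificate on the line `{(i, i + 1)}` (one dimensional form) -/
def LineCert (q : ℕ) (a : ZMod q) : Prop :=
  ∃ N : ℕ, ∀ X : ℕ → ZMod q, ∃ i k : ℕ, 0 < k ∧ i + k ≤ N ∧ k ∣ 2 * i ^ 2 + 2 * i + 1 ∧
    X i + X (i + k) = a + 2 * (ArithmeticFunction.cardFactors k : ZMod q)

theorem dp_sq_add_dt_sq (u v : ℤ × ℤ) : dp u v ^ 2 + dt u v ^ 2 = nm u * nm v := by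
  simp only [nm, dp, dt]; ring

theorem dt_lin (u v z w : ℤ × ℤ) : dt (lin u z w) (lin v z w) = dt u v * dt z w := by
  simp only [dt, lin]; ring

theorem Cert.of_line {q : ℕ} {a : ZMod q} (h : LineCert q a) : Cert q a := by
  obtain ⟨N, hN⟩ := h
  refine ⟨(Finset.range (N + 1)).image fun i : ℕ => ((i : ℤ), (i : ℤ) + 1), ?_, ?_⟩
  · intro u hu
    obtain ⟨i, -, rfl⟩ := Finset.mem_image.mp hu
    refine ⟨⟨(i : ℤ) ^ 2 + i, by simp only [nm]; ring⟩, ?_⟩
    simp only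
    omega
  · intro X
    obtain ⟨i, k, hk, hik, hdvd, hX⟩ := hN fun i => X ((i : ℤ), (i : ℤ) + 1)
    refine ⟨_, Finset.mem_image_of_mem _ (Finset.mem_range.mpr (by omega : i < N + 1)),
      _, Finset.mem_image_of_mem _ (Finset.mem_range.mpr (by omega : i + k < N + 1)), ?_, ?_, ?_⟩
    · simp only [dt]; push_cast; intro h0; apply hk.ne'
      have : (k : ℤ) = 0 := by linear_combination -h0
      exact_mod_cast this
    · have h1 : dt ((i : ℤ), (i : ℤ) + 1) (((i + k : ℕ) : ℤ), ((i + k : ℕ) : ℤ) + 1) = -(k : ℤ) := by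
        simp only [dt]; push_cast; ring
      have h2 : dp ((i : ℤ), (i : ℤ) + 1) (((i + k : ℕ) : ℤ), ((i + k : ℕ) : ℤ) + 1) =
          (2 * (i : ℤ) ^ 2 + 2 * i + 1) + k * (2 * i + 1) := by
        simp only [dp]; push_cast; ring
      rw [h1, h2, neg_dvd]
      refine dvd_add ?_ (dvd_mul_right _ _)
      exact_mod_cast hdvd
    · have h1 : dt ((i : ℤ), (i : ℤ) + 1) (((i + k : ℕ) : ℤ), ((i + k : ℕ) : ℤ) + 1) = -(k : ℤ) := by
        simp only [dt]; push_cast; ring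
      have h3 : om (-(k : ℤ)) = ArithmeticFunction.cardFactors k := by
        simp [om]
      rw [h1, h3]
      exact hX

end Pool.Agent.OmAP
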