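import Pool.Agent.Lib_MP_f1a94e_ap.Defs2

/-!
# MP_f1a94e_nt: elementary inequalities for the Brun-Hooley weights (piece S2)
-/

set_option autoImplicit false

namespace Pool.Agent.OmAP

open Finset

theorem prod_sub_le {ι : Type*} [DecidableEq ι] (s : Finset ι) (x y : ι → ℝ)
    (hx : ∀ i ∈ s, 0 ≤ x i) (hxy : ∀ i ∈ s, x i ≤ y i) :
    ∏ i ∈ s, y i - ∑ l ∈ s, (y l - x l) * ∏ i ∈ s.erase l, y i ≤ ∏ i ∈ s, x i := by
  induction s using Finset.induction_on with
  | empty => simp
  | insert i t hi ih =>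
    have hx' : ∀ j ∈ t, 0 ≤ x j := fun j hj => hx j (mem_insert_of_mem hj)
    have hxy' : ∀ j ∈ t, x j ≤ y j := fun j hj => hxy j (mem_insert_of_mem hj)
    have ih' := ih hx' hxy'
    have hxi := hx i (mem_insert_self i t)
    have hxyi := hxy i (mem_insert_self i t)
    rw [prod_insert hi, prod_insert hi, sum_insert hi, erase_insert hi]
    have hsum : ∑ l ∈ t, (y l - x l) * ∏ j ∈ (insert i t).erase l, y j =
        y i * ∑ l ∈ t, (y l - x l) * ∏ j ∈ t.erase l, y j := by
      rw [mul_sum]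
      refine sum_congr rfl fun l hl => ?_
      have hne : l ≠ i := fun h => hi (h ▸ hl)
      rw [erase_insert_of_ne hne.symm, prod_insert (fun h => hi (mem_of_mem_erase h))]
      ring
    rw [hsum]
    have hD : 0 ≤ ∑ l ∈ t, (y l - x l) * ∏ j ∈ t.erase l, y j := by
      refine sum_nonneg fun l hl => mul_nonneg (sub_nonneg.2 (hxy' l hl)) ?_
      exact prod_nonneg fun j hj => (hx' j (mem_of_mem_erase hj)).trans (hxy' j (mem_of_mem_erase hj))
    nlinarith [mul_le_mul_of_nonneg_left ih' hxi, mul_nonneg (sub_nonneg.2 hxyi) hD]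

/-- the alternating sum of binomial coefficients -/
theorem alt_sum_succ (b s : ℕ) :
    ∑ k ∈ range (b + 1), (-1 : ℝ) ^ k * ((s + 1).choose k : ℝ) = (-1) ^ b * (s.choose b : ℝ) := by
  induction b with
  | zero => simp
  | succ b ih =>
    rw [sum_range_succ, ih, Nat.choose_succ_succ s b]
    push_cast
    ring

theorem alt_sum_zero (b : ℕ) :
    ∑ k ∈ range (b + 1), (-1 : ℝ) ^ k * ((0 : ℕ).choose k : ℝ) = 1 := by
  rw [sum_eq_single 0]
  · simp
  · intro k _ hk
    rw [Nat.choose_eq_zero_of_lt (Nat.pos_of_ne_zero hk)]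
    simp
  · simp

theorem bonf_lower (b s : ℕ) (hb : Even b) :
    (if s = 0 then (1 : ℝ) else 0) ≤ ∑ k ∈ range (b + 1), (-1 : ℝ) ^ k * (s.choose k : ℝ) := by
  rcases s with _ | s
  · rw [alt_sum_zero]; simp
  · rw [alt_sum_succ, hb.neg_one_pow]
    simp

theorem bonf_upper (b s : ℕ) (hb : Even b) :
    ∑ k ∈ range (b + 1), (-1 : ℝ) ^ k * (s.choose k : ℝ) - (if s = 0 then (1 : ℝ) else 0) ≤
      (s.choose (b + 1) : ℝ) := by
  rcases s with _ | s
  · rw [alt_sum_zero]; simp
  · rw [alt_sum_succ, hb.neg_one_pow, Nat.choose_succ_succ]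
    push_cast
    simp

end Pool.Agent.OmAP
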