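import Pool.Agent.Lib_MP_f1a94e_ap.Defs2

/-!
# MP_f1a94e_nt: transfer of a certificate to a basis congruent to the identity
-/

set_option autoImplicit false

namespace Pool.Agent.OmAP

open Finset ArithmeticFunction

theorem om_mul {m n : ℤ} (hm : m ≠ 0) (hn : n ≠ 0) : om (m * n) = om m + om n := by
  simp only [om, Int.natAbs_mul]
  exact cardFactors_mul (Int.natAbs_ne_zero.mpr hm) (Int.natAbs_ne_zero.mpr hn)

theorem om_sq {m : ℤ} (hm : m ≠ 0) : om (m ^ 2) = 2 * om m := by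
  rw [sq, om_mul hm hm]; ring

theorem lin_fst (L : ℤ) (u z w : ℤ × ℤ) (hz1 : L ∣ z.1 - 1) (hw1 : L ∣ w.1) :
    L ∣ (lin u z w).1 - u.1 := by
  obtain ⟨a, ha⟩ := hz1
  obtain ⟨b, hb⟩ := hw1
  refine ⟨u.1 * a + u.2 * b, ?_⟩
  simp only [lin]
  linear_combination u.1 * ha + u.2 * hb

theorem lin_snd (L : ℤ) (u z w : ℤ × ℤ) (hz2 : L ∣ z.2) (hw2 : L ∣ w.2 - 1) :
    L ∣ (lin u z w).2 - u.2 := by
  obtain ⟨a, ha⟩ := hz2
  obtain ⟨b, hb⟩ := hw2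
  refine ⟨u.1 * a + u.2 * b, ?_⟩
  simp only [lin]
  linear_combination u.1 * ha + u.2 * hb

theorem nm_lin_sub (L : ℤ) (u z w : ℤ × ℤ) (hz1 : L ∣ z.1 - 1) (hz2 : L ∣ z.2) (hw1 : L ∣ w.1)
    (hw2 : L ∣ w.2 - 1) : L ∣ nm (lin u z w) - nm u := by
  obtain ⟨a, ha⟩ := lin_fst L u z w hz1 hw1
  obtain ⟨b, hb⟩ := lin_snd L u z w hz2 hw2
  refine ⟨a * ((lin u z w).1 + u.1) + b * ((lin u z w).2 + u.2), ?_⟩
  simp only [nm]
  linear_combination ((lin u z w).1 + u.1) * ha + ((lin u z w).2 + u.2) * hb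

theorem dp_lin_sub (L : ℤ) (u v z w : ℤ × ℤ) (hz1 : L ∣ z.1 - 1) (hz2 : L ∣ z.2) (hw1 : L ∣ w.1)
    (hw2 : L ∣ w.2 - 1) : L ∣ dp (lin u z w) (lin v z w) - dp u v := by
  obtain ⟨a, ha⟩ := lin_fst L u z w hz1 hw1
  obtain ⟨b, hb⟩ := lin_snd L u z w hz2 hw2
  obtain ⟨a', ha'⟩ := lin_fst L v z w hz1 hw1
  obtain ⟨b', hb'⟩ := lin_snd L v z w hz2 hw2
  refine ⟨a * (lin v z w).1 + u.1 * a' + b * (lin v z w).2 + u.2 * b', ?_⟩
  simp only [dp]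
  linear_combination (lin v z w).1 * ha + u.1 * ha' + (lin v z w).2 * hb + u.2 * hb'

theorem transfer {q : ℕ} {a : ZMod q} {V : Finset (ℤ × ℤ)} (hV : IsCert q a V) (L : ℤ)
    (hL2 : 2 ∣ L) (hL : ∀ u ∈ V, ∀ v ∈ V, dt u v ≠ 0 → dt u v ∣ L) (z w : ℤ × ℤ)
    (hdet : dt z w = 1) (hz1 : L ∣ z.1 - 1) (hz2 : L ∣ z.2) (hw1 : L ∣ w.1) (hw2 : L ∣ w.2 - 1) :
    ∃ u ∈ V, ∃ v ∈ V, ∃ n : ℤ, dt u v ≠ 0 ∧
      dp (lin u z w) (lin v z w) = dt u v * n ∧ Even n ∧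
      (om (n ^ 2 + 1) : ZMod q) = a ∧
      om (n ^ 2 + 1) + 2 * om (dt u v) = om (nm (lin u z w)) + om (nm (lin v z w)) ∧
      om ((dt u v) ^ 2 * (n ^ 2 + 1)) = om (nm (lin u z w)) + om (nm (lin v z w)) ∧
      n ^ 2 + 1 ≤ nm (lin u z w) * nm (lin v z w) := by
  obtain ⟨hodd, hX⟩ := hV
  obtain ⟨u, hu, v, hv, hD, hdvd, hsum⟩ := hX fun u => (om (nm (lin u z w)) : ZMod q)
  have h1 : dt u v ∣ dp (lin u z w) (lin v z w) := by
    have h2 : dt u v ∣ dp (lin u z w) (lin v z w) - dp u v :=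
      (hL u hu v hv hD).trans (dp_lin_sub L u v z w hz1 hz2 hw1 hw2)
    have h3 := dvd_add h2 hdvd
    rwa [sub_add_cancel] at h3
  obtain ⟨n, hn⟩ := h1
  have hmain : nm (lin u z w) * nm (lin v z w) = (dt u v) ^ 2 * (n ^ 2 + 1) := by
    have h4 := dp_sq_add_dt_sq (lin u z w) (lin v z w)
    rw [dt_lin, hdet, mul_one, hn] at h4
    linear_combination -h4
  have hodd' : ∀ t ∈ V, Odd (nm (lin t z w)) := by
    intro t ht
    obtain ⟨c, hc⟩ := hL2.trans (nm_lin_sub L t z w hz1 hz2 hw1 hw2)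
    obtain ⟨d, hd⟩ := (hodd t ht).1
    exact ⟨c + d, by linear_combination hc + hd⟩
  have hU := hodd' u hu
  have hW := hodd' v hv
  have hprod : Odd ((dt u v) ^ 2 * (n ^ 2 + 1)) := by
    rw [← hmain]; exact hU.mul hW
  have hn1 : Odd (n ^ 2 + 1) := (Int.odd_mul.mp hprod).2
  have hev : Even n := by
    by_contra hne
    rw [Int.not_even_iff_odd] at hne
    have h5 : Even (n ^ 2 + 1) := (hne.pow).add_odd odd_one
    exact (Int.not_even_iff_odd.mpr hn1) h5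
  have hpos : (0 : ℤ) < n ^ 2 + 1 := by positivity
  have hU0 : nm (lin u z w) ≠ 0 := by
    intro h0; rw [h0] at hU; exact absurd hU (by decide)
  have hW0 : nm (lin v z w) ≠ 0 := by
    intro h0; rw [h0] at hW; exact absurd hW (by decide)
  have hom : om (nm (lin u z w)) + om (nm (lin v z w)) = om ((dt u v) ^ 2 * (n ^ 2 + 1)) := by
    rw [← om_mul hU0 hW0, hmain]
  have hom2 : om ((dt u v) ^ 2 * (n ^ 2 + 1)) = 2 * om (dt u v) + om (n ^ 2 + 1) := by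
    rw [om_mul (pow_ne_zero 2 hD) hpos.ne', om_sq hD]
  refine ⟨u, hu, v, hv, n, hD, hn, hev, ?_, ?_, hom.symm, ?_⟩
  · have h6 : ((om (nm (lin u z w)) + om (nm (lin v z w)) : ℕ) : ZMod q) =
        ((2 * om (dt u v) + om (n ^ 2 + 1) : ℕ) : ZMod q) := by rw [hom, hom2]
    push_cast at h6
    rw [hsum] at h6
    linear_combination -h6
  · rw [hom, hom2]; ring
  · rw [hmain]
    have h7 : 1 ≤ (dt u v) ^ 2 := by
      have h8 : 0 < (dt u v) ^ 2 := by positivity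
      omega
    nlinarith
end Pool.Agent.OmAP
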